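import Pool.Agent.N520.SV.Stm
import Pool.Agent.H904R2.MV

/-!
# Project TD: vanishing of the simplicial volume of closed affine manifolds with a translation

Setting (not needed for the packages): `M = Γ \ Ω` a closed affine manifold, `Ω` open in `E`, `V` the span
of the translations of the holonomy, `T` the group of these translations, a lattice in `V`, `Ω + V = Ω`,
`π : E → Q = E / V`, `U = π(Ω)`. The group `G = ρ(Γ)` acts properly and cocompactly on `U`. THEOREM: all
bounded cocycles of `M` of degree larger than `m = dim Q` are coboundaries, so all homology classes of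
these degrees have seminorm zero; in particular the simplicial volume of `M` is zero if `V ≠ 0`.

Proof. (I) straightening in the direction of `V` (STR), a homotopy (PRI) and averaging over the vertices
with the help of invariant means on the stabilizers of the fibres (PMEAN, FIELD, IM, AVG): a bounded
cocycle on `M` is, up to a coboundary, the pull back of a `G`-invariant cocycle of `U`. (II) The homology of
the `G`-coinvariants of the singular chains of `U` vanishes in degrees `> m` (GMV, GLOC, CHART, GIND),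
since the homology of open subsets of `ℝ^m` vanishes in degrees `≥ m` (PI, DJ, MVS, SLAB, CPT, LIN, ACY,
FLAT, QH). (III) Duality (DUAL).

Every `S_XXX` below is the exact statement of a package; the proof is in its docstring. Inputs which are
other packages are hypotheses of the statement of the package. Deliver `theorem xxx : S_XXX`.
-/

set_option autoImplicit false

open Set Filter Topology

namespace Pool.Agent.P8H67.TD

open Pool.Agent.N520.SV (Sx Chain face bdry norm1 BCob)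
open Pool.Agent.H904R2 (RAcyc)

/-! ## Definitions -/

/-- real homology of the space `Z` vanishes in degree `j + 1` -/
def RA (j : ℕ) (Z : Type) [TopologicalSpace Z] : Prop :=
  ∀ c : Chain (j + 1) Z, bdry j c = 0 → ∃ w : Chain (j + 2) Z, bdry (j + 1) w = c

section G
variable (G : Type) [Group G] {Y : Type} [TopologicalSpace Y] [MulAction G Y]
  [ContinuousConstSMul G Y]

/-- the translate of a singular simplex -/
def gs {G : Type} [Group G] {Y : Type} [TopologicalSpace Y] [MulAction G Y]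
    [ContinuousConstSMul G Y] {k : ℕ} (g : G) (σ : C(Sx k, Y)) : C(Sx k, Y) :=
  ⟨fun t => g • σ t, (continuous_const_smul g).comp σ.continuous⟩

/-- the chains of simplices contained in `W` -/
noncomputable def CC (k : ℕ) (W : Set Y) : Submodule ℝ (Chain k Y) := Finsupp.supported ℝ ℝ {σ | range σ ⊆ W}

/-- the span of the chains `g σ - σ`, for simplices `σ` in `W`; used for invariant sets `W`, and then it
is the set of the chains in `W` whose coefficients have the sum zero over each orbit of simplices -/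
noncomputable def KK (k : ℕ) (W : Set Y) : Submodule ℝ (Chain k Y) :=
  Submodule.span ℝ {c | ∃ (g : G) (σ : C(Sx k, Y)), range σ ⊆ W ∧
    c = Finsupp.single (gs g σ) 1 - Finsupp.single σ 1}

/-- the homology of the coinvariants of the chains in `W` vanishes in degree `j + 1` -/
def GAc (j : ℕ) (W : Set Y) : Prop :=
  ∀ c ∈ CC (j + 1) W, bdry j c ∈ KK G j W →
    ∃ w ∈ CC (j + 2) W, c - bdry (j + 1) w ∈ KK G (j + 1) W

/-- invariant sets -/
def GInv {Y : Type} [MulAction G Y] (W : Set Y) : Prop := ∀ (g : G), ∀ y ∈ W, g • y ∈ W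

/-- the union of the translates -/
def orb {Y : Type} [MulAction G Y] (W : Set Y) : Set Y := {y | ∃ g : G, g • y ∈ W}

end G

/-- the vertices of the standard simplex -/
def vtx {n : ℕ} (i : Fin (n + 1)) : Sx n := ⟨Pi.single i 1, single_mem_stdSimplex ℝ i⟩

/-- bounded real functions -/
def Bd {A : Type} (f : A → ℝ) : Prop := ∃ C : ℝ, ∀ a, |f a| ≤ C

/-- positive left invariant means -/
def PMean (Γ : Type) [Group Γ] : Prop := ∃ m : (Γ → ℝ) → ℝ,
  (∀ f g : Γ → ℝ, Bd f → Bd g → m (fun γ => f γ + g γ) = m f + m g) ∧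
  (∀ (c : ℝ) (f : Γ → ℝ), Bd f → m (fun γ => c * f γ) = c * m f) ∧ m (fun _ => 1) = 1 ∧
  (∀ (c : ℝ) (f : Γ → ℝ), Bd f → (∀ γ, f γ ≤ c) → m f ≤ c) ∧
  ∀ (f : Γ → ℝ), Bd f → ∀ δ : Γ, m (fun γ => f (δ * γ)) = m f

/-- the stabilizer of a point under a group of affine maps -/
def St {Γ Q : Type} [Group Γ] [NormedAddCommGroup Q] [NormedSpace ℝ Q]
    (ρ : Γ →* (Q ≃ᵃ[ℝ] Q)) (u : Q) : Subgroup Γ where
  carrier := {γ | ρ γ u = u}
  one_mem' := by simp
  mul_mem' := by
    intro a b ha hb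
    show ρ (a * b) u = u
    rw [map_mul]
    show ρ a (ρ b u) = u
    rw [show ρ b u = u from hb, show ρ a u = u from ha]
  inv_mem' := by
    intro a ha
    show ρ a⁻¹ u = u
    rw [map_inv]
    exact (ρ a).injective (((ρ a).apply_symm_apply u).trans (show ρ a u = u from ha).symm)

/-! ## Part II, homology of open subsets of `ℝ^m` (integral chains, `Pool.Agent.H904R2`)

`RAcyc X (j + 1)`: every integral singular cycle of degree `j + 1` is a boundary. -/

/-- PI (40 lines). `Ioo a b ×ˢ V` is homotopy equivalent to `V`: use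
`Pool.Agent.H904R2.MV.racyc_of_htpy` with `f (x, v) = v`, `g v = ((a + b) / 2, v)` and the straight
homotopy `H ((x, v), t)` in the first coordinate from `(a + b) / 2` to `x` (`t = 1`). -/
def S_PI : Prop := ∀ (Z : Type) [TopologicalSpace Z] (V : Set Z) (a b : ℝ), a < b → ∀ j : ℕ,
  RAcyc V (j + 1) → RAcyc (Ioo a b ×ˢ V : Set (ℝ × Z)) (j + 1)

/-- DJ (60 lines). Disjoint open sets: a simplex in `A ∪ B` has its range in `A` or in `B`
(`Sx k` is connected), so a chain is a sum `a + b`; `sbd a` and `- sbd b` are equal, are in `A` and in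
`B`, so they are zero. Use `lift_ch`, `psh_inc_mem`, `inS` of `Pool.Agent.H904R2.MV`. (Or: apply
`mv_acyc_succ` to the space `A ∪ B`; the intersection is empty, so it has no chains but `0`. For
`j + 1 = 1` the condition `RAcyc ∅ 0` holds too.) -/
def S_DJ : Prop := ∀ (Z : Type) [TopologicalSpace Z] (A B : Set Z), IsOpen A → IsOpen B →
  Disjoint A B → ∀ j : ℕ, RAcyc A (j + 1) → RAcyc B (j + 1) → RAcyc (A ∪ B : Set Z) (j + 1)

/-- MVS (60 lines). `Pool.Agent.H904R2.MV.mv_acyc_succ` for the space `A ∪ B` (subtype) and its open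
subsets `A`, `B`: transfer along the homeomorphisms of `A` with the subset of `A ∪ B`
(`racyc_of_retract`). -/
def S_MVS : Prop := ∀ (Z : Type) [TopologicalSpace Z] (A B : Set Z), IsOpen A → IsOpen B →
  ∀ j : ℕ, RAcyc A (j + 2) → RAcyc B (j + 2) → RAcyc (A ∩ B : Set Z) (j + 1) →
  RAcyc (A ∪ B : Set Z) (j + 2)

/-- SLAB (120 lines). Finite unions of products `Ioo l r ×ˢ V`. Let `P` be the finite set of all `l i`,
`r i`, `W` the union. Claim: for all `a < b` the set `W ∩ (Ioo a b ×ˢ univ)` has `RAcyc _ (j + 2)`;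
then take `a`, `b` outside of all (`N = 0`: `W` empty). Induction on the number of the points of `P` in
`Ioo a b`. No point: the set is `Ioo a b ×ˢ V'`, `V'` the union of the `V i` with
`Ioo a b ⊆ Ioo (l i) (r i)` (otherwise `Ioo a b` and `Ioo (l i) (r i)` are disjoint): PI. A point `p`:
let `a < a' < p < b' < b` be such that `p` is the only point of `P` in `Ioo a' b'`, and
`V_p` the union of the `V i` with `l i < p < r i`. Put `A` = the union of the two slabs over `Ioo a p` and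
`Ioo p b` (disjoint open, DJ, induction), `C = Ioo a' b' ×ˢ V_p` (PI, contained in `W`). Then
`A ∪ C` is the slab over `Ioo a b` (points over `p` are in `C`) and `A ∩ C` is the disjoint union of
`Ioo a' p ×ˢ V_p` and `Ioo p b' ×ˢ V_p` (DJ, PI, degree `j + 1`): MVS. -/
def S_SLAB : Prop := S_PI → S_DJ → S_MVS → ∀ (Z : Type) [TopologicalSpace Z] (j : ℕ),
  (∀ V : Set Z, IsOpen V → RAcyc V (j + 1)) → (∀ V : Set Z, IsOpen V → RAcyc V (j + 2)) →
  ∀ (N : ℕ) (l r : Fin N → ℝ) (V : Fin N → Set Z), (∀ i, IsOpen (V i)) →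
    RAcyc (⋃ i, Ioo (l i) (r i) ×ˢ V i : Set (ℝ × Z)) (j + 2)

/-- CPT (80 lines). Compact support: the ranges of the simplices of a cycle `z` of `W` have a compact
union, which is covered by finitely many sets `Ioo l r ×ˢ V ⊆ W`, `V` open; so `z` comes from a cycle of
this union (`lift_ch`, `isCyc_of_psh`), bounds there, hence in `W`. -/
def S_CPT : Prop := ∀ (Z : Type) [TopologicalSpace Z] (j : ℕ),
  (∀ (N : ℕ) (l r : Fin N → ℝ) (V : Fin N → Set Z), (∀ i, IsOpen (V i)) →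
    RAcyc (⋃ i, Ioo (l i) (r i) ×ˢ V i : Set (ℝ × Z)) (j + 1)) →
  ∀ W : Set (ℝ × Z), IsOpen W → RAcyc W (j + 1)

/-- LIN (100 lines). Open subsets of the line. The components of `W` are open intervals; choose a point
`b(C)` in each component `C`, so `x ↦ b(x)` is locally constant on `W`, and `(1 - t) b(x) + t x` is a homotopy in
`W` from the retraction to the discrete set `D` of the points `b` to the identity (`racyc_of_htpy` with
`Y = D` with the discrete topology, e.g. `ConnectedComponents W`). For a discrete space `D` every simplex is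
constant (`Sx k` is connected) and `RAcyc D (j + 1)`: the boundary of the constant simplex of degree `n` at
`p` is `0` for odd `n` and the constant simplex of degree `n - 1` for even `n ≥ 2`. (Any other proof is welcome, e.g.
cones over the simplices: `Pool.Agent.N951.SV.Cone`.) -/
def S_LIN : Prop := ∀ (W : Set ℝ), IsOpen W → ∀ j : ℕ, RAcyc W (j + 1)

/-- ACY (60 lines). Open subsets of `ℝ^(m+1)` have no homology in degrees `j + 1 ≥ m + 1`. Induction on
`m`. `m = 0`: LIN and `(Fin 1 → ℝ) ≃ₜ ℝ`. From `m` to `m + 1`: `(Fin (m + 2) → ℝ) ≃ₜ ℝ × (Fin (m+1) → ℝ)`;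
the degree is `j + 1` with `j ≥ m + 1`, so `j = j' + 1` with `j' ≥ m` and the claim is for degree
`j' + 2`: SLAB with `Z = Fin (m + 1) → ℝ` (the hypotheses in degrees `j' + 1` and `j' + 2` are the
induction hypothesis), then CPT. -/
def S_ACY : Prop := S_PI → S_DJ → S_MVS → S_SLAB → S_CPT → S_LIN →
  ∀ (m : ℕ) (W : Set (Fin (m + 1) → ℝ)), IsOpen W → ∀ j : ℕ, m ≤ j → RAcyc W (j + 1)

/-- FLAT (80 lines). From integral to real coefficients: the coefficients of the real cycle `c` span a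
finitely generated `ℚ`-module with basis `r_1, …, r_s` in `ℝ`; `c = ∑ r_i c_i` with rational chains `c_i`,
and `bdry c = 0` implies `bdry c_i = 0` by the linear independence; a multiple of `c_i` is integral, so
`c_i` is a boundary. (`bdry` is the same sum as `sbd`: `Pool.Agent.Helper922.HB.Sc.sface`, `bd_single`.) -/
def S_FLAT : Prop := ∀ (Z : Type) [TopologicalSpace Z] (j : ℕ), RAcyc Z (j + 1) → RA j Z

/-- QH (50 lines). Open subsets of open subsets of a finite-dimensional space `Q`: `W` is homeomorphic to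
an open subset of `Fin (m + 1) → ℝ`, `m + 1 = finrank Q`; transfer (`racyc_of_retract`). The first
hypothesis is the conclusion of ACY. -/
def S_QH : Prop :=
  (∀ (m : ℕ) (W : Set (Fin (m + 1) → ℝ)), IsOpen W → ∀ j : ℕ, m ≤ j → RAcyc W (j + 1)) → S_FLAT →
  ∀ (Q : Type) [NormedAddCommGroup Q] [NormedSpace ℝ Q] [FiniteDimensional ℝ Q] (U : Set Q),
    IsOpen U → 1 ≤ Module.finrank ℝ Q → ∀ W : Set U, IsOpen W →
    ∀ j : ℕ, Module.finrank ℝ Q ≤ j + 1 → RA j W

/-! ## Part II, coinvariants of a group action -/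

/-- SUB (150 lines). Equivariant subdivision for the cover of `A ∪ B` by `A` and `B`. Let `Z` be the
space `A ∪ B` (subtype) with the open cover `{A, B}`; `Pool.Agent.Helper922.HB.Sc.rho`, `DD` (file `Small`)
are `ℤ`-linear with `rho (k+1) z = z - sbd (DD (k+1) z) - DD k (sbd z)` (`rho_succ`), `rho_small`. Define
`R k`, `D k` on a basis element `σ` with range in `A ∪ B` as the image of `rho`, `DD` of the corresponding
simplex of `Z` (coefficients from `ℤ` to `ℝ`), and by `0` on the other simplices. Last clause: `DD`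
commutes with homeomorphisms of `Z` which preserve `A` and `B`, here `y ↦ g • y`, since `mm` does
(`Good`, `mm` are defined by the ranges of the small simplices), so `D (g σ) = g D σ`; hence `D` maps
generators of `KK` to `KK`. -/
def S_SUB : Prop := ∀ (Y G : Type) [TopologicalSpace Y] [Group G] [MulAction G Y]
    [ContinuousConstSMul G Y] (A B : Set Y), IsOpen A → IsOpen B → GInv G A → GInv G B →
  ∃ (R : ∀ k, Chain k Y →ₗ[ℝ] Chain k Y) (D : ∀ k, Chain k Y →ₗ[ℝ] Chain (k + 1) Y),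
    (∀ k, ∀ c ∈ CC (k + 1) (A ∪ B), c = R (k + 1) c + bdry (k + 1) (D (k + 1) c) +
      D k (bdry k c)) ∧
    (∀ k, ∀ c ∈ CC k (A ∪ B), R k c ∈ CC k A ⊔ CC k B) ∧
    (∀ k, ∀ c ∈ CC k (A ∪ B), D k c ∈ CC (k + 1) (A ∪ B)) ∧
    ∀ k, ∀ c ∈ KK G k (A ∪ B), D k c ∈ KK G (k + 1) (A ∪ B)

/-- GMV (150 lines). Mayer-Vietoris. For an invariant set `W` the space `KK G k W` consists of the `c` in
`CC k W` with `∑ c(τ) = 0` over the `τ` in each `G`-orbit of simplices; so (i) `KK G k (A ∪ B) ∩ (CC k A ⊔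
CC k B) = KK G k A ⊔ KK G k B` (split `c` into the part of the simplices in `A` and the rest), (ii)
`KK G k A ∩ CC k (A ∩ B) = KK G k (A ∩ B)`; also `CC k A ∩ CC k B = CC k (A ∩ B)`, and `bdry` maps `KK` to
`KK`. Proof of GMV: let `c ∈ CC (j+2) (A ∪ B)`, `bdry c ∈ KK (A ∪ B)`. By SUB
`c = a + b + bdry d + κ`, `a` in `A`, `b` in `B`, `κ = D (bdry c) ∈ KK`. Then `bdry a + bdry b ∈ KK (A ∪ B)`,
by (i) `= k_A + k_B`; `e := bdry a - k_A = k_B - bdry b` is in `CC (A ∩ B)` and `bdry e = - bdry k_A`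
is in `KK A`, hence by (ii) in `KK (A ∩ B)`. By `GAc G j (A ∩ B)`: `e = bdry w + k'`. Then
`bdry (a - w) = k_A + k' ∈ KK A` and `bdry (b + w) = k_B - k' ∈ KK B`; so `a - w` and `b + w` are boundaries
modulo `KK`, hence `c` is. -/
def S_GMV : Prop := S_SUB → ∀ (Y G : Type) [TopologicalSpace Y] [Group G] [MulAction G Y]
    [ContinuousConstSMul G Y] (A B : Set Y), IsOpen A → IsOpen B → GInv G A → GInv G B →
  ∀ j : ℕ, GAc G (j + 1) A → GAc G (j + 1) B → GAc G j (A ∩ B) → GAc G (j + 1) (A ∪ B)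

/-- GLOC (150 lines). The sets `{y | g • y ∈ W}` are open and two of them, for `g`, `h`, are equal or
disjoint according to `h g⁻¹ ∈ F` or not; so a simplex in `orb G W` has its (connected) range in one of
them, and is a translate of a simplex in `W`. So `c = c' + κ` with `c' ∈ CC W`, `κ ∈ KK (orb W)`. If a
simplex `σ` and `g σ` are in `W` then `g ∈ F`. Let `c'' = (1/|F|) ∑_{f ∈ F} f c'`; `c'' - c' ∈ KK (orb W)`
and `bdry c'' = (1/|F|) ∑ f bdry c'` is zero, because `bdry c'` is in `CC W` and in `KK G j (orb W)`, so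
the sum of its coefficients over each orbit is zero, and the orbits in `W` are `F`-orbits. Now
`c''` is a boundary of a chain of `W` by `RA j W`. -/
def S_GLOC : Prop := ∀ (Y G : Type) [TopologicalSpace Y] [Group G] [MulAction G Y]
    [ContinuousConstSMul G Y] (F : Subgroup G) [Finite F] (B W : Set Y),
  (∀ g ∉ F, ∀ y ∈ B, g • y ∉ B) → IsOpen W → W ⊆ B → (∀ g ∈ F, ∀ y ∈ W, g • y ∈ W) →
  ∀ j : ℕ, RA j W → GAc G j (orb G W)

/-- CHART (100 lines). Every `y` has a finite stabilizer `F` and an open neighbourhood `B` with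
`g B = B` for `g ∈ F`, `g B ∩ B = ∅` for `g ∉ F` (take a compact neighbourhood `K`; finitely many `g` have
`g K ∩ K ≠ ∅`; for those outside `F` separate `y` and `g y`; intersect the translates by `F`). By
compactness finitely many `orb G B` cover `K`, hence `Y`. -/
def S_CHART : Prop := ∀ (Y G : Type) [TopologicalSpace Y] [T2Space Y] [LocallyCompactSpace Y]
    [Group G] [MulAction G Y] [ContinuousConstSMul G Y],
  (∀ K : Set Y, IsCompact K → {g : G | ∃ y ∈ K, g • y ∈ K}.Finite) →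
  (∃ K : Set Y, IsCompact K ∧ ∀ y : Y, ∃ g : G, g • y ∈ K) →
  ∃ (N : ℕ) (F : Fin N → Subgroup G) (B : Fin N → Set Y), (∀ i, Finite (F i)) ∧
    (∀ i, IsOpen (B i)) ∧ (∀ i, ∀ g ∈ F i, ∀ y ∈ B i, g • y ∈ B i) ∧
    (∀ i, ∀ g ∉ F i, ∀ y ∈ B i, g • y ∉ B i) ∧ ∀ y : Y, ∃ i, y ∈ orb G (B i)

/-- GIND (80 lines). Let `A_n` be the union of `orb G (B i)`, `i < n`. Induction on `n`: for all `j` with
`m ≤ j + 1` one has `GAc G (j + 1) A_n`. `A_0 = ∅`: chains are zero. Step: `A = A_n`, `B = orb G (B_n)`,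
`A ∩ B = orb G (B_n ∩ A_n)`; `GAc G (j + 1) B` and `GAc G j (A ∩ B)` by GLOC (with `W = B_n`, `W = B_n ∩ A_n`;
the homology of open sets vanishes in degrees `≥ m`; here `m ≤ j + 1`). Then GMV. -/
def S_GIND : Prop := S_SUB → S_GMV → S_GLOC → S_CHART → ∀ (Y G : Type) [TopologicalSpace Y]
    [T2Space Y] [LocallyCompactSpace Y] [Group G] [MulAction G Y] [ContinuousConstSMul G Y],
  (∀ K : Set Y, IsCompact K → {g : G | ∃ y ∈ K, g • y ∈ K}.Finite) →
  (∃ K : Set Y, IsCompact K ∧ ∀ y : Y, ∃ g : G, g • y ∈ K) →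
  ∀ m : ℕ, (∀ W : Set Y, IsOpen W → ∀ j : ℕ, m ≤ j + 1 → RA j W) →
  ∀ j : ℕ, m ≤ j + 1 → GAc G (j + 1) (univ : Set Y)

/-- DUAL (60 lines). `β`, extended linearly to `Chain (j+1) Y`, vanishes on `KK` and on boundaries. If
`bdry j c ∈ KK G j univ` then `β c = 0` by `GAc`. So `β` factors through the map
`Chain (j+1) Y → Chain j Y ⧸ KK G j univ`, hence extends to a linear form on `Chain j Y ⧸ KK G j univ`
(vector spaces), which is `α`. -/
def S_DUAL : Prop := ∀ (Y G : Type) [TopologicalSpace Y] [Group G] [MulAction G Y]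
    [ContinuousConstSMul G Y] (j : ℕ), GAc G j (univ : Set Y) → ∀ β : C(Sx (j + 1), Y) → ℝ,
  (∀ (g : G) σ, β (gs g σ) = β σ) →
  (∀ τ : C(Sx (j + 2), Y), ∑ i : Fin (j + 3), (-1 : ℝ) ^ (i : ℕ) * β (τ.comp (face i)) = 0) →
  ∃ α : C(Sx j, Y) → ℝ, (∀ (g : G) σ, α (gs g σ) = α σ) ∧
    ∀ σ : C(Sx (j + 1), Y), β σ = ∑ i : Fin (j + 2), (-1 : ℝ) ^ (i : ℕ) * α (σ.comp (face i))

/-! ## Part I: averaging -/

/-- PMEAN (60 lines): the proof of `Pool.Agent.N225.SV.t_mean` (file `N225/SV/Mean.lean`) gives positive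
means (`hle` in `mean_of_invHB`); add the clause of positivity. -/
def S_PMEAN : Prop := ∀ (Γ : Type) [Group Γ] (H : Subgroup Γ), H.FiniteIndex →
  Group.IsSolvable H → PMean Γ

section
variable (E Q Γ : Type) [NormedAddCommGroup E] [NormedSpace ℝ E] [NormedAddCommGroup Q]
  [NormedSpace ℝ Q] [Group Γ]

/-- the standing hypotheses: `π` is a surjection which intertwines the affine actions of `Γ` on `E` and
`Q`, and `Ω` is an invariant set which is a union of fibres of `π` -/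
structure Sys (hol : Γ →* (E ≃ᵃ[ℝ] E)) (ρ : Γ →* (Q ≃ᵃ[ℝ] Q)) (π : E →L[ℝ] Q) (Ω : Set E) :
    Prop where
  surj : Function.Surjective π
  equi : ∀ γ p, π (hol γ p) = ρ γ (π p)
  inv : ∀ γ, ∀ p ∈ Ω, hol γ p ∈ Ω
  sat : ∀ p ∈ Ω, ∀ q, π q = π p → q ∈ Ω

end

/-- `x` is a tuple of points of `Ω` over the vertices of `π ∘ s` -/
def Adm {E Q : Type} [NormedAddCommGroup E] [NormedSpace ℝ E] [NormedAddCommGroup Q]
    [NormedSpace ℝ Q] (π : E →L[ℝ] Q) (Ω : Set E) {n : ℕ} (s : C(Sx n, E))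
    (x : Fin (n + 1) → E) : Prop :=
  (∀ i, x i ∈ Ω) ∧ ∀ i, π (x i) = π (s (vtx i))

/-- STR (120 lines). Let `σ0 : Q → E` be a linear section of `π`, `V = ker π`. For each orbit of `Γ` in `Ω`
choose a point `d`; by freeness each `y ∈ Ω` is `hol γ d` for exactly one `γ`; put
`F y p = (hol γ).linear ((q - d) - σ0 (π (q - d)))`, `q = hol γ⁻¹ p`, with values in `V`. Then `F y` is
continuous, `F y (p + v) = F y p + v` for `v ∈ V`, and `F (hol δ y) (hol δ p) = (hol δ).linear (F y p)`.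
Put `Str n s x t = s t - ∑ i, t i • F (x i) (s t)` (for `x i ∉ Ω` put `F (x i) = 0`, say). As `∑ t i = 1`, it
depends only on `π ∘ s` and `x`, if all `x i ∈ Ω`. -/
def S_STR : Prop := ∀ (E Q Γ : Type) [NormedAddCommGroup E] [NormedSpace ℝ E]
    [FiniteDimensional ℝ E] [NormedAddCommGroup Q] [NormedSpace ℝ Q] [FiniteDimensional ℝ Q]
    [Group Γ] (hol : Γ →* (E ≃ᵃ[ℝ] E)) (ρ : Γ →* (Q ≃ᵃ[ℝ] Q)) (π : E →L[ℝ] Q) (Ω : Set E),
  Sys E Q Γ hol ρ π Ω → (∀ γ, ∀ p ∈ Ω, hol γ p = p → γ = 1) →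
  ∃ Str : ∀ n, C(Sx n, E) → (Fin (n + 1) → E) → C(Sx n, E),
    (∀ n s x t, Adm π Ω s x → π (Str n s x t) = π (s t)) ∧
    (∀ n (s s' : C(Sx n, E)) x, Adm π Ω s x → (∀ t, π (s t) = π (s' t)) →
      Str n s x = Str n s' x) ∧
    (∀ n (s : C(Sx (n + 1), E)) x (i : Fin (n + 2)), Adm π Ω s x →
      (Str (n + 1) s x).comp (face i) = Str n (s.comp (face i)) (fun l => x (i.succAbove l))) ∧
    ∀ n (s s' : C(Sx n, E)) x γ, Adm π Ω s x → (∀ t, s' t = hol γ (s t)) →
      ∀ t, Str n s' (fun i => hol γ (x i)) t = hol γ (Str n s x t)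

/-- PRI (120 lines). The prism of the straight homotopy from `s` to `s'`. Either from
`Pool.Agent.Helper922.HB.Sc.Prism` (`PD` for the homotopy `Sx n × I → E`, `(t, r) ↦ (1-r) s t + r s' t`,
applied to the identity simplex; `sbd_PD`, `PD_single`; change the coefficients from `ℤ` to `ℝ`), or
directly: `pr n s s' = ∑_{l ≤ n} (-1)^l P_l`, `P_l t = (1 - r) s q + r s' q`, with
`q = (t_0, …, t_l + t_(l+1), …, t_(n+1))`, `r = ∑_{i > l} t_i`. -/
def S_PRI : Prop := ∀ (E : Type) [NormedAddCommGroup E] [NormedSpace ℝ E]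
    [FiniteDimensional ℝ E], ∃ pr : ∀ n, C(Sx n, E) → C(Sx n, E) → Chain (n + 1) E,
  (∀ n (s s' : C(Sx (n + 1), E)), bdry (n + 1) (pr (n + 1) s s') =
    Finsupp.single s' 1 - Finsupp.single s 1 -
      ∑ i : Fin (n + 2), ((-1 : ℝ) ^ (i : ℕ)) • pr n (s.comp (face i)) (s'.comp (face i))) ∧
  (∀ n s s', ∀ τ ∈ (pr n s s').support, ∀ t, ∃ (q : Sx n) (r : ℝ), 0 ≤ r ∧ r ≤ 1 ∧
    τ t = (1 - r) • s q + r • s' q) ∧
  (∀ n, ∃ C : ℝ, ∀ s s', norm1 (pr n s s') ≤ C) ∧
  ∀ (g : E ≃ᵃ[ℝ] E) (gc : C(E, E)), (∀ p, gc p = g p) → ∀ n s s',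
    pr n (gc.comp s) (gc.comp s') = Finsupp.mapDomain (fun τ => gc.comp τ) (pr n s s')

/-- the means on the fibres -/
def FieldOf (E Q Γ : Type) [NormedAddCommGroup E] [NormedSpace ℝ E] [NormedAddCommGroup Q]
    [NormedSpace ℝ Q] [Group Γ] (hol : Γ →* (E ≃ᵃ[ℝ] E)) (ρ : Γ →* (Q ≃ᵃ[ℝ] Q)) (π : E →L[ℝ] Q)
    (Ω : Set E) (M : Q → (E → ℝ) → ℝ) : Prop :=
  ∀ u ∈ π '' Ω,
    (∀ f g : E → ℝ, Bd f → Bd g → M u (fun p => f p + g p) = M u f + M u g) ∧
    (∀ (c : ℝ) (f : E → ℝ), Bd f → M u (fun p => c * f p) = c * M u f) ∧ M u (fun _ => 1) = 1 ∧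
    (∀ (c : ℝ) (f : E → ℝ), Bd f → (∀ p ∈ Ω, π p = u → f p ≤ c) → M u f ≤ c) ∧
    ∀ (γ : Γ) (f : E → ℝ), Bd f → M (ρ γ u) f = M u (fun p => f (hol γ p))

/-- FIELD (80 lines). For each orbit of `ρ(Γ)` in `π '' Ω` choose `u0` and `b ∈ Ω` over `u0`, and for each
`u` of the orbit `γ_u` with `ρ γ_u u0 = u`; with the mean `m` of the stabilizer `St ρ u0` put
`M u f = m (δ ↦ f (hol (γ_u δ) b))`. As `γ_(ρ γ u)⁻¹ γ γ_u` is in `St ρ u0`, the equivariance follows from
the left invariance of `m`. -/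
def S_FIELD : Prop := ∀ (E Q Γ : Type) [NormedAddCommGroup E] [NormedSpace ℝ E]
    [NormedAddCommGroup Q] [NormedSpace ℝ Q] [Group Γ] (hol : Γ →* (E ≃ᵃ[ℝ] E))
    (ρ : Γ →* (Q ≃ᵃ[ℝ] Q)) (π : E →L[ℝ] Q) (Ω : Set E),
  Sys E Q Γ hol ρ π Ω → (∀ p ∈ Ω, PMean (St ρ (π p))) → ∃ M, FieldOf E Q Γ hol ρ π Ω M

/-- iterated means on tuples of points over a tuple `u` of points of `Q` -/
def ItOf (E Q Γ : Type) [NormedAddCommGroup E] [NormedSpace ℝ E] [NormedAddCommGroup Q]
    [NormedSpace ℝ Q] [Group Γ] (hol : Γ →* (E ≃ᵃ[ℝ] E)) (ρ : Γ →* (Q ≃ᵃ[ℝ] Q)) (π : E →L[ℝ] Q)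
    (Ω : Set E) (I : ∀ n, (Fin n → Q) → ((Fin n → E) → ℝ) → ℝ) : Prop :=
  (∀ n (u : Fin n → Q), (∀ i, u i ∈ π '' Ω) →
    (∀ f g : (Fin n → E) → ℝ, Bd f → Bd g → I n u (fun x => f x + g x) = I n u f + I n u g) ∧
    (∀ (c : ℝ) (f : (Fin n → E) → ℝ), Bd f → I n u (fun x => c * f x) = c * I n u f) ∧
    I n u (fun _ => 1) = 1 ∧
    (∀ (c : ℝ) (f : (Fin n → E) → ℝ), Bd f → (∀ x, (∀ i, x i ∈ Ω ∧ π (x i) = u i) → f x ≤ c) →
      I n u f ≤ c) ∧
    ∀ (γ : Γ) (f : (Fin n → E) → ℝ), Bd f →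
      I n (fun i => ρ γ (u i)) f = I n u (fun x => f (fun i => hol γ (x i)))) ∧
  ∀ l (u : Fin (l + 1) → Q), (∀ i, u i ∈ π '' Ω) → ∀ (i : Fin (l + 1)) (f : (Fin l → E) → ℝ),
    Bd f → I (l + 1) u (fun x => f (fun a => x (i.succAbove a))) =
      I l (fun a => u (i.succAbove a)) f

/-- IM (100 lines). Iterate: `I 0 u f = f default`, `I (n+1) u f = M (u 0) (p ↦ I n (u ∘ succ)
(x ↦ f (Fin.cons p x)))`. All properties by induction; bounds of `f` give bounds of the inner means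
(use the clause for `c` with `f` and `-f`), and two functions which agree on the tuples over `u` have the
same mean. Last clause: for `i = 0` a mean of a constant, for `i = i' + 1` induction. -/
def S_IM : Prop := ∀ (E Q Γ : Type) [NormedAddCommGroup E] [NormedSpace ℝ E]
    [NormedAddCommGroup Q] [NormedSpace ℝ Q] [Group Γ] (hol : Γ →* (E ≃ᵃ[ℝ] E))
    (ρ : Γ →* (Q ≃ᵃ[ℝ] Q)) (π : E →L[ℝ] Q) (Ω : Set E),
  Sys E Q Γ hol ρ π Ω → (∃ M, FieldOf E Q Γ hol ρ π Ω M) → ∃ I, ItOf E Q Γ hol ρ π Ω I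

/-- the result of Part I: a bounded invariant cocycle is the pull back of an invariant cocycle of `Q`, up
to the coboundary of an invariant cochain -/
def S_RED : Prop := ∀ (E Q Γ : Type) [NormedAddCommGroup E] [NormedSpace ℝ E]
    [FiniteDimensional ℝ E] [NormedAddCommGroup Q] [NormedSpace ℝ Q] [FiniteDimensional ℝ Q]
    [Group Γ] (hol : Γ →* (E ≃ᵃ[ℝ] E)) (ρ : Γ →* (Q ≃ᵃ[ℝ] Q)) (π : E →L[ℝ] Q) (Ω : Set E),
  Sys E Q Γ hol ρ π Ω → (∀ γ, ∀ p ∈ Ω, hol γ p = p → γ = 1) →
  (∀ p ∈ Ω, PMean (St ρ (π p))) → ∀ (k : ℕ) (φ : C(Sx (k + 1), E) → ℝ) (C : ℝ),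
  (∀ s : C(Sx (k + 1), E), range s ⊆ Ω → |φ s| ≤ C) →
  (∀ γ (s s' : C(Sx (k + 1), E)), range s ⊆ Ω → (∀ t, s' t = hol γ (s t)) → φ s' = φ s) →
  (∀ τ : C(Sx (k + 2), E), range τ ⊆ Ω →
    ∑ i : Fin (k + 3), (-1 : ℝ) ^ (i : ℕ) * φ (τ.comp (face i)) = 0) →
  ∃ (β : C(Sx (k + 1), Q) → ℝ) (η : C(Sx k, E) → ℝ),
    (∀ γ (u u' : C(Sx (k + 1), Q)), range u ⊆ π '' Ω → (∀ t, u' t = ρ γ (u t)) → β u' = β u) ∧
    (∀ τ : C(Sx (k + 2), Q), range τ ⊆ π '' Ω →
      ∑ i : Fin (k + 3), (-1 : ℝ) ^ (i : ℕ) * β (τ.comp (face i)) = 0) ∧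
    (∀ γ (s s' : C(Sx k, E)), range s ⊆ Ω → (∀ t, s' t = hol γ (s t)) → η s' = η s) ∧
    ∀ (s : C(Sx (k + 1), E)) (u : C(Sx (k + 1), Q)), range s ⊆ Ω → (∀ t, u t = π (s t)) →
      φ s = β u + ∑ i : Fin (k + 2), (-1 : ℝ) ^ (i : ℕ) * η (s.comp (face i))

/-- AVG (200 lines). Let `σ0` be a linear section of `π`; `β u` is the iterated mean `I (k+2) (u ∘ vtx)` of
`x ↦ φ (Str (k+1) (σ0 ∘ u) x)` (`0` if `x` is not admissible), bounded by `C`. It is invariant and a
cocycle: for `τ` of degree `k + 2` and `x` over its vertices the sum of the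
`(-1)^i φ (Str (τ ∘ face i) (x ∘ succAbove i))` is `0` by the face property of `Str`; take the iterated mean
over `x`, the `i`-th term does not depend on `x i` (last clause of `ItOf`). Homotopy: for `s` of degree `k` and
`x` admissible let `h s x = φ` evaluated at the chain `pr k s (Str k s x)` (its simplices have range
in `Ω`, since `(1-r) s q + r Str s x q` has the same image under `π` as `s q`), bounded by
`C * norm1 (pr k _ _)`. For `s` of degree `k + 1`: `φ` vanishes on `bdry (pr (k+1) s (Str s x))`, so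
`φ (Str s x) - φ s = ∑ (-1)^i h (s ∘ face i) (x ∘ succAbove i)`. Take the iterated mean over `x`:
`β (π ∘ s) - φ s = ∑ (-1)^i η' (s ∘ face i)`, where `η' s` is the iterated mean of `h s x`; `η = - η'`.
Invariance from the equivariance of `Str`, `pr`, `I`. -/
def S_AVG : Prop := S_STR → S_PRI → S_FIELD → S_IM → S_RED

end Pool.Agent.P8H67.TD
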