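import Pool.Agent.P8H67.TD.Fin
import Pool.Agent.P8H42.TD.Sub
import Pool.Agent.P8H44.TD.Dj
import Pool.Agent.P8H45.TD.Dual
import Pool.Agent.P8H45.TD.Gmv
import Pool.Agent.P8H5.TD.Flat
import Pool.Agent.P8H54.TD.Chart
import Pool.Agent.P8H54.TD.Gind
import Pool.Agent.P8H55.TD.Acy
import Pool.Agent.P8H66.TD.Gloc
import Pool.Agent.P8H70.TD.Field
import Pool.Agent.P8H70.TD.Im
import Pool.Agent.P8H80.TD.Pmean
import Pool.Agent.P8H80.TD.Pri
import Pool.Agent.P8H80.TD.Str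
import Pool.Agent.P8H84.TD.Slab
import Pool.Agent.P8H93.TD.Avg
import Pool.Agent.P8H93.TD.Pi
import Pool.Agent.P8H37.TD.Cpt
import Pool.Agent.P8H37.TD.Lin

/-!
Project TD: the theorem for translations, as a helper.
-/

set_option autoImplicit false

open Set Filter Topology
open Pool.Agent.W689.Mk

namespace Pool.Agent.P8H67.TD

open Pool.Agent.N520.SV (Sx Chain face bdry norm1 BCob seminorm1)

theorem qhc : QHC := Pool.Agent.P8H55.TD.qh (Pool.Agent.P8H55.TD.acy Pool.Agent.P8H93.TD.pi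
    Pool.Agent.P8H44.TD.dj Pool.Agent.P8H44.TD.mvs Pool.Agent.P8H84.TD.slb
    Pool.Agent.P8H37.TD.cpt Pool.Agent.P8H37.TD.lin) Pool.Agent.P8H5.TD.flat

/-- a translation in the holonomy -/
theorem td_trans (X Γ E : Type) [NormedAddCommGroup E] [NormedSpace ℝ E] [FiniteDimensional ℝ E]
    [TopologicalSpace X] [T2Space X] [Nonempty X] [Group Γ] [MulAction Γ X] (dev : X → E)
    (hol : Γ →* (E ≃ᵃ[ℝ] E)) (D : AffD X Γ E dev hol)
    (hfree : ∀ (γ : Γ) (x : X), γ • x = x → γ = 1) (hinj : Function.Injective dev)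
    (ht : ∃ (γ : Γ) (v : E), v ≠ 0 ∧ ∀ p, hol γ p = p + v) (k : ℕ)
    (hk : Module.finrank ℝ E ≤ k + 1) (z : Chain (k + 1) (MulAction.orbitRel.Quotient Γ X))
    (hz : bdry k z = 0) : seminorm1 z = 0 := by
  have hhol : Function.Injective hol := by
    rw [injective_iff_map_eq_one]
    intro γ hγ
    obtain ⟨x⟩ := (inferInstance : Nonempty X)
    refine hfree γ x (hinj ?_)
    rw [D.equi, hγ]
    rfl
  obtain ⟨Q, i1, i2, i3, π, ρ, G, U, a1, a2, a3, a4, a5, a6, a7, a9⟩ :=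
    quoS_all _ X Γ E dev hol D hinj hhol le_rfl
  subst a3
  have hGI : GI := Pool.Agent.P8H54.TD.gind Pool.Agent.P8H42.TD.sub Pool.Agent.P8H45.TD.gmv
    Pool.Agent.P8H66.TD.gloc Pool.Agent.P8H54.TD.chart
  have hRED : S_RED := Pool.Agent.P8H93.TD.avg Pool.Agent.P8H80.TD.str Pool.Agent.P8H80.TD.pri
    Pool.Agent.P8H70.TD.field Pool.Agent.P8H70.TD.im
  refine vanish Pool.Agent.P8H80.TD.pmean hRED hGI Pool.Agent.P8H45.TD.dual qhc X Γ E Q dev hol D
    hfree hinj π ρ U a1 a2 a4 a5 a6 a9 k ?_ z hz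
  obtain ⟨γ, v, hv, hγ⟩ := ht
  have h2 : ∀ q, ρ γ q = q + π v := by
    intro q
    obtain ⟨p, rfl⟩ := a1 q
    rw [← a2, hγ, map_add]
  have h3 : ρ γ = 1 := by
    refine a7 _ ⟨γ, rfl⟩ (LinearEquiv.ext fun q => ?_)
    have h4 : (ρ γ).linear q = ρ γ q - ρ γ 0 := by
      have := Pool.Agent.W689.Mk.hol_sub (hol := ρ) γ q 0
      rw [sub_zero] at this
      exact this.symm
    rw [h4, h2, h2]
    show q + π v - (0 + π v) = q
    abel
  have h4 : π v = 0 := by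
    have h5 := h2 0
    rw [h3, zero_add] at h5
    exact h5.symm
  have h5 : 0 < Module.finrank ℝ (LinearMap.ker (π : E →ₗ[ℝ] Q)) := by
    rw [Module.finrank_pos_iff_exists_ne_zero]
    exact ⟨⟨v, h4⟩, fun h => hv (congrArg Subtype.val h)⟩
  have h6 := LinearMap.finrank_range_add_finrank_ker (π : E →ₗ[ℝ] Q)
  rw [LinearMap.range_eq_top.2 a1, finrank_top] at h6
  omega

end Pool.Agent.P8H67.TD
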