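import Pool.Agent.P8H67.TD.Gen
import Pool.Agent.N278.SV.Lift

/-!
Project TD: bounded cocycles of degree larger than the dimension of the quotient are coboundaries.
-/

set_option autoImplicit false

open Set Filter Topology
open Pool.Agent.W689.Mk

namespace Pool.Agent.P8H67.TD

open Pool.Agent.N520.SV (Sx Chain face bdry norm1 BCob)

/-- the conclusion of GIND -/
def GI : Prop := ∀ (Y G : Type) [TopologicalSpace Y]
    [T2Space Y] [LocallyCompactSpace Y] [Group G] [MulAction G Y] [ContinuousConstSMul G Y],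
  (∀ K : Set Y, IsCompact K → {g : G | ∃ y ∈ K, g • y ∈ K}.Finite) →
  (∃ K : Set Y, IsCompact K ∧ ∀ y : Y, ∃ g : G, g • y ∈ K) →
  ∀ m : ℕ, (∀ W : Set Y, IsOpen W → ∀ j : ℕ, m ≤ j + 1 → RA j W) →
  ∀ j : ℕ, m ≤ j + 1 → GAc G (j + 1) (univ : Set Y)

/-- the conclusion of QH -/
def QHC : Prop := ∀ (Q : Type) [NormedAddCommGroup Q] [NormedSpace ℝ Q] [FiniteDimensional ℝ Q]
    (U : Set Q), IsOpen U → 1 ≤ Module.finrank ℝ Q → ∀ W : Set U, IsOpen W →
    ∀ j : ℕ, Module.finrank ℝ Q ≤ j + 1 → RA j W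

theorem bcob (hRED : S_RED) (hGI : GI) (hDUAL : S_DUAL) (hQH : QHC) (X Γ E Q : Type)
    [NormedAddCommGroup E] [NormedSpace ℝ E] [FiniteDimensional ℝ E] [NormedAddCommGroup Q]
    [NormedSpace ℝ Q] [FiniteDimensional ℝ Q] [TopologicalSpace X] [T2Space X] [Group Γ]
    [MulAction Γ X] (dev : X → E) (hol : Γ →* (E ≃ᵃ[ℝ] E)) (D : AffD X Γ E dev hol)
    (hfree : ∀ (γ : Γ) (x : X), γ • x = x → γ = 1) (hinj : Function.Injective dev)
    (π : E →L[ℝ] Q) (ρ : Γ →* (Q ≃ᵃ[ℝ] Q)) (U : Set Q) (hsurj : Function.Surjective π)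
    (hequi : ∀ γ p, π (hol γ p) = ρ γ (π p)) (hU : U = π '' range dev)
    (hsat : ∀ p, π p ∈ U → p ∈ range dev)
    (hD' : ∃ _ : MulAction ρ.range U, AffD U ρ.range Q Subtype.val ρ.range.subtype)
    (hmean : ∀ p ∈ range dev, PMean (St ρ (π p))) (hQ1 : 1 ≤ Module.finrank ℝ Q) (k : ℕ)
    (hk : Module.finrank ℝ Q ≤ k) : BCob k (MulAction.orbitRel.Quotient Γ X) := by
  classical
  intro φ hφb hφc
  obtain ⟨C, hC⟩ := hφb
  have hemb : IsOpenEmbedding dev := D.loc.isOpenEmbedding_of_injective hinj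
  have : LocallyCompactSpace X := hemb.locallyCompactSpace
  let q : C(X, MulAction.orbitRel.Quotient Γ X) := ⟨fun x => Quotient.mk'' x, continuous_quotient_mk'⟩
  let dv : C(X, E) := ⟨dev, hemb.continuous⟩
  have hq : ∀ (γ : Γ) (x : X), q (γ • x) = q x := fun γ x =>
    Quotient.sound' (MulAction.orbitRel_apply.2 ⟨γ, rfl⟩)
  have hinv : ∀ γ, ∀ p ∈ range dev, hol γ p ∈ range dev := by
    rintro γ _ ⟨x, rfl⟩
    exact ⟨γ • x, D.equi γ x⟩
  have hlift : ∀ (n : ℕ) (s : C(Sx n, E)), range s ⊆ range dev →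
      ∃ s' : C(Sx n, X), s = dv.comp s' := by
    intro n s hs
    refine ⟨⟨fun t => hemb.isEmbedding.toHomeomorph.symm ⟨s t, hs ⟨t, rfl⟩⟩,
      hemb.isEmbedding.toHomeomorph.symm.continuous.comp (s.continuous.subtype_mk _)⟩, ?_⟩
    ext t
    exact (congrArg Subtype.val
      (hemb.isEmbedding.toHomeomorph.apply_symm_apply ⟨s t, hs ⟨t, rfl⟩⟩)).symm
  have hdvinj : ∀ (n : ℕ) (s s' : C(Sx n, X)), dv.comp s = dv.comp s' → s = s' := by
    intro n s s' h
    ext t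
    exact hinj (congrArg (fun f : C(Sx n, E) => f t) h)
  obtain ⟨φE, hφE⟩ : ∃ φE : C(Sx (k + 1), E) → ℝ,
      ∀ s : C(Sx (k + 1), X), φE (dv.comp s) = φ (q.comp s) := by
    refine ⟨fun s => if h : range s ⊆ range dev then φ (q.comp (hlift _ s h).choose) else 0,
      fun s => ?_⟩
    have h1 : range (dv.comp s) ⊆ range dev := by
      rintro _ ⟨t, rfl⟩
      exact ⟨s t, rfl⟩
    simp only
    rw [dif_pos h1]
    rw [← hdvinj _ _ _ (hlift _ (dv.comp s) h1).choose_spec]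
  have hrange : ∀ (n : ℕ) (s : C(Sx n, X)), range (dv.comp s) ⊆ range dev := by
    rintro n s _ ⟨t, rfl⟩
    exact ⟨s t, rfl⟩
  -- the action on simplices of `X`
  have hact : ∀ (γ : Γ) (n : ℕ) (s : C(Sx n, X)), ∃ s' : C(Sx n, X), ∀ t, s' t = γ • s t :=
    fun γ n s => ⟨⟨fun t => γ • s t, (D.cont γ).comp s.continuous⟩, fun t => rfl⟩
  have hacte : ∀ (γ : Γ) (n : ℕ) (s : C(Sx n, X)) (s'' : C(Sx n, E)),
      (∀ t, s'' t = hol γ (dv.comp s t)) → ∃ s' : C(Sx n, X), s'' = dv.comp s' ∧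
        ∀ t, s' t = γ • s t := by
    intro γ n s s'' h
    obtain ⟨s', hs'⟩ := hact γ n s
    refine ⟨s', ?_, hs'⟩
    ext t
    rw [h]
    show hol γ (dev (s t)) = dev (s' t)
    rw [hs', D.equi]
  obtain ⟨β, η, hβi, hβc, hηi, hφβ⟩ := hRED E Q Γ hol ρ π (range dev)
    ⟨hsurj, hequi, hinv, fun p hp r hr => hsat r (by rw [hr, hU]; exact mem_image_of_mem _ hp)⟩
    (by
      rintro γ _ ⟨x, rfl⟩ h
      refine hfree γ x (hinj ?_)
      rw [D.equi, h])
    hmean k φE C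
    (by
      intro s hs
      obtain ⟨s', rfl⟩ := hlift _ s hs
      rw [hφE]
      exact hC _)
    (by
      intro γ s s'' hs h
      obtain ⟨s1, rfl⟩ := hlift _ s hs
      obtain ⟨s2, rfl, h2⟩ := hacte γ _ s1 s'' h
      rw [hφE, hφE]
      congr 1
      ext t
      show q (s2 t) = q (s1 t)
      rw [h2, hq])
    (by
      intro τ hτ
      obtain ⟨τ1, rfl⟩ := hlift _ τ hτ
      have h1 := hφc (q.comp τ1)
      rw [← h1]
      refine Finset.sum_congr rfl fun i _ => ?_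
      rw [ContinuousMap.comp_assoc, hφE]
      rfl)
  -- the quotient
  obtain ⟨act, D'⟩ := hD'
  have hcs : ContinuousConstSMul ρ.range U := ⟨D'.cont⟩
  have hUo : IsOpen U := by
    have h1 := D'.loc.isOpenMap.isOpen_range
    rwa [Subtype.range_coe] at h1
  have : LocallyCompactSpace U := hUo.locallyCompactSpace
  have hGA : GAc ρ.range k (univ : Set U) := by
    obtain ⟨j, rfl⟩ : ∃ j, k = j + 1 := ⟨k - 1, by omega⟩
    refine hGI U ρ.range D'.pd ?_ (Module.finrank ℝ Q) (fun W hW j hj => hQH Q U hUo hQ1 W hW j hj)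
      j hk
    obtain ⟨K, hK, hKc⟩ := D'.cc
    refine ⟨K, hK, fun y => ?_⟩
    obtain ⟨g, x, hx, hgx⟩ := hKc y
    refine ⟨g⁻¹, ?_⟩
    rw [← hgx, inv_smul_smul]
    exact hx
  let vc : C(U, Q) := ⟨Subtype.val, continuous_subtype_val⟩
  have hvr : ∀ (n : ℕ) (u : C(Sx n, U)), range (vc.comp u) ⊆ π '' range dev := by
    rintro n u _ ⟨t, rfl⟩
    rw [← hU]
    exact (u t).2
  have hsm : ∀ (γ : Γ) (y : U), (((⟨ρ γ, γ, rfl⟩ : ρ.range) • y : U) : Q) = ρ γ y :=
    fun γ y => D'.equi ⟨ρ γ, γ, rfl⟩ y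
  obtain ⟨α, hαi, hα⟩ := hDUAL U ρ.range k hGA (fun u => β (vc.comp u))
    (by
      rintro ⟨_, γ, rfl⟩ u
      exact hβi γ (vc.comp u) (vc.comp (gs (⟨ρ γ, γ, rfl⟩ : ρ.range) u)) (hvr _ _)
        fun t => hsm γ (u t))
    (by
      intro τ
      rw [← hβc (vc.comp τ) (hvr _ _)]
      refine Finset.sum_congr rfl fun i _ => ?_
      rfl)
  have hUm : ∀ x : X, π (dev x) ∈ U := fun x => by
    rw [hU]; exact mem_image_of_mem _ ⟨x, rfl⟩
  let pd : C(X, U) := ⟨fun x => ⟨π (dev x), hUm x⟩,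
    (π.continuous.comp hemb.continuous).subtype_mk _⟩
  have hL := Pool.Agent.N278.SV.t_lift X Γ D.cont D.pd hfree
  refine ⟨fun τ => α (pd.comp (hL k τ).1.choose) + η (dv.comp (hL k τ).1.choose), fun σ => ?_⟩
  obtain ⟨s, hs⟩ := (hL (k + 1) σ).1
  have hσ : q.comp s = σ := by
    ext t
    exact hs t
  have h1 := hφβ (dv.comp s) (vc.comp (pd.comp s)) (hrange _ s) (fun t => rfl)
  rw [hφE, hσ] at h1
  rw [h1, hα (pd.comp s), ← Finset.sum_add_distrib]
  refine Finset.sum_congr rfl fun i _ => ?_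
  rw [← mul_add]
  congr 1
  have hc := (hL k (σ.comp (face i))).1.choose_spec
  obtain ⟨γ, hγ⟩ := (hL k (σ.comp (face i))).2 (hL k (σ.comp (face i))).1.choose
    (s.comp (face i)) hc (fun t => by rw [← hσ]; rfl)
  congr 1
  · rw [← hαi ⟨ρ γ, γ, rfl⟩ (pd.comp (hL k (σ.comp (face i))).1.choose)]
    congr 1
    ext t
    rw [ContinuousMap.comp_assoc]
    show π (dev ((s.comp (face i)) t)) = _
    rw [hγ, D.equi, hequi]
    exact (hsm γ ((pd.comp (hL k (σ.comp (face i))).1.choose) t)).symm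
  · rw [ContinuousMap.comp_assoc]
    exact hηi γ (dv.comp (hL k (σ.comp (face i))).1.choose) (dv.comp (s.comp (face i)))
      (hrange _ _) fun t => by
        show dev ((s.comp (face i)) t) = _
        rw [hγ, D.equi]
        rfl

end Pool.Agent.P8H67.TD
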