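import Pool.Agent.P8H67.TD.Mu
import Pool.Agent.P8H67.TD.Cob
import Pool.Agent.N520.SV.Fin

/-!
Project TD: vanishing above the dimension of the quotient by the translations.
-/

set_option autoImplicit false

open Set Filter Topology
open Pool.Agent.W689.Mk

namespace Pool.Agent.P8H67.TD

open Pool.Agent.N520.SV (Sx Chain face bdry norm1 BCob seminorm1)

theorem pmean_of_vsolv (hPM : S_PMEAN) (G : Type) [Group G] (h : VSolv G) : PMean G := by
  obtain ⟨A, hA, hs⟩ := h
  exact hPM G A hA hs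

theorem vanish (hPM : S_PMEAN) (hRED : S_RED) (hGI : GI) (hDUAL : S_DUAL) (hQH : QHC)
    (X Γ E Q : Type) [NormedAddCommGroup E] [NormedSpace ℝ E] [FiniteDimensional ℝ E]
    [NormedAddCommGroup Q] [NormedSpace ℝ Q] [FiniteDimensional ℝ Q] [TopologicalSpace X]
    [T2Space X] [Nonempty X] [Group Γ] [MulAction Γ X] (dev : X → E) (hol : Γ →* (E ≃ᵃ[ℝ] E))
    (D : AffD X Γ E dev hol) (hfree : ∀ (γ : Γ) (x : X), γ • x = x → γ = 1)
    (hinj : Function.Injective dev)
    (π : E →L[ℝ] Q) (ρ : Γ →* (Q ≃ᵃ[ℝ] Q)) (U : Set Q) (hsurj : Function.Surjective π)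
    (hequi : ∀ γ p, π (hol γ p) = ρ γ (π p)) (hU : U = π '' range dev)
    (hsat : ∀ p, π p ∈ U → p ∈ range dev)
    (hD' : ∃ _ : MulAction ρ.range U, AffD U ρ.range Q Subtype.val ρ.range.subtype)
    (hst : ∀ p ∈ range dev, VSolv (St ρ (π p))) (k : ℕ)
    (hk : Module.finrank ℝ Q ≤ k) (z : Chain (k + 1) (MulAction.orbitRel.Quotient Γ X))
    (hz : bdry k z = 0) : seminorm1 z = 0 := by
  suffices hb : BCob k (MulAction.orbitRel.Quotient Γ X) from
    (Pool.Agent.N340.SV.HB.t_hb _ k hb).seminorm1_eq_zero z hz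
  rcases Nat.eq_zero_or_pos (Module.finrank ℝ Q) with h0 | hpos
  · have hQ : Subsingleton Q := Module.finrank_zero_iff.1 h0
    obtain ⟨x0⟩ := ‹Nonempty X›
    have hr : range dev = univ := by
      refine eq_univ_of_forall fun p => hsat p ?_
      rw [hU]
      exact ⟨dev x0, ⟨x0, rfl⟩, Subsingleton.elim _ _⟩
    have hh : IsHomeomorph dev := by
      refine ⟨D.loc.continuous, D.loc.isOpenMap, hinj, ?_⟩
      rw [← range_eq_univ]
      exact hr
    let e : X ≃ₜ E := hh.homeomorph dev
    have : LocallyCompactSpace X :=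
      (D.loc.isOpenEmbedding_of_injective hinj).locallyCompactSpace
    have hS : St ρ (π (dev x0)) = ⊤ := eq_top_iff.2 fun γ _ => Subsingleton.elim _ _
    have hv := hst (dev x0) ⟨x0, rfl⟩
    rw [hS] at hv
    obtain ⟨A, hA, hs⟩ := hv
    have hmean : Pool.Agent.N520.SV.HasMean Γ := by
      let f : Γ →* (⊤ : Subgroup Γ) := (Subgroup.topEquiv (G := Γ)).symm.toMonoidHom
      have hf : Function.Injective f := (Subgroup.topEquiv (G := Γ)).symm.injective
      refine Pool.Agent.N225.SV.t_mean Γ (A.comap f) (Pool.Agent.P8H67.TT.fi_comap f A hA) ?_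
      let i : (A.comap f) →* A :=
        { toFun := fun a => ⟨f a, a.2⟩
          map_one' := Subtype.ext (by simp)
          map_mul' := fun a b => Subtype.ext (by simp) }
      refine Group.isSolvable_of_isSolvable_injective (f := i) fun a b hab => ?_
      exact Subtype.ext (hf (congrArg Subtype.val hab))
    exact Pool.Agent.N520.SV.coc X Γ E e hol D.cont D.pd hfree D.equi hmean k
  · exact bcob hRED hGI hDUAL hQH X Γ E Q dev hol D hfree hinj π ρ U hsurj hequi hU hsat hD'
      (fun p hp => pmean_of_vsolv hPM _ (hst p hp)) hpos k hk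

end Pool.Agent.P8H67.TD
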