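import Pool.Agent.P8H83.Quo
import Pool.Agent.P8H67.TD.Stm
import Pool.Agent.P8H67.TT.Grp
import Pool.Agent.P8H83.TowerT

/-!
Project TD: closed affine manifolds without a condition on the volume. The span of the translations
of the holonomy; adapted from `Pool.Agent.P8H83.Trans` and `Pool.Agent.P8H83.Quo` (helper83), where the
parallel volume is not used.
-/

set_option autoImplicit false

open Set Filter Topology Metric MeasureTheory
open scoped ENNReal
open Pool.Agent.W689.Mk Pool.Agent.TH94.MK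

namespace Pool.Agent.P8H67.TD

open Pool.Agent.P8H83

/-- A closed affine manifold (or orbifold) `Γ \ X`, given by a cover `X`, the
group `Γ` acting on `X`, the developing map and the holonomy. -/
structure AffD (X Γ E : Type) [TopologicalSpace X] [Group Γ] [MulAction Γ X]
    [NormedAddCommGroup E] [NormedSpace ℝ E] (dev : X → E) (hol : Γ →* (E ≃ᵃ[ℝ] E)) : Prop where
  /-- the developing map is a local homeomorphism -/
  loc : IsLocalHomeomorph dev
  /-- the group acts by homeomorphisms -/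
  cont : ∀ γ : Γ, Continuous fun x : X => γ • x
  /-- the developing map is equivariant -/
  equi : ∀ (γ : Γ) (x : X), dev (γ • x) = hol γ (dev x)
  /-- the action is properly discontinuous -/
  pd : ∀ K : Set X, IsCompact K → {γ : Γ | ∃ x ∈ K, γ • x ∈ K}.Finite
  /-- the quotient is compact -/
  cc : ∃ K : Set X, IsCompact K ∧ ∀ x : X, ∃ γ : Γ, ∃ k ∈ K, γ • k = x

section
variable {X Γ E : Type} [NormedAddCommGroup E] [NormedSpace ℝ E]
  [TopologicalSpace X] [T2Space X] [Group Γ] [MulAction Γ X] {dev : X → E}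
  {hol : Γ →* (E ≃ᵃ[ℝ] E)}

theorem g_range_inv (D : AffD X Γ E dev hol) (γ : Γ) (q : E) (hq : q ∈ range dev) :
    hol γ q ∈ range dev := by
  obtain ⟨y, rfl⟩ := hq
  exact ⟨γ • y, D.equi γ y⟩

theorem g_range_pd (D : AffD X Γ E dev hol) (hinj : Function.Injective dev) (C : Set E)
    (hC : IsCompact C) (hCr : C ⊆ range dev) : {γ : Γ | ∃ c ∈ C, hol γ c ∈ C}.Finite := by
  have ho := D.loc.isOpenEmbedding_of_injective hinj
  have h1 : IsCompact (dev ⁻¹' C) := (ho.isInducing.isCompact_preimage_iff hCr).2 hC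
  refine (D.pd _ h1).subset ?_
  rintro γ ⟨c, hc, hγc⟩
  obtain ⟨y, rfl⟩ := hCr hc
  refine ⟨y, hc, ?_⟩
  show dev (γ • y) ∈ C
  rw [D.equi]; exact hγc

theorem g_range_cc (D : AffD X Γ E dev hol) : ∃ C0 : Set E, IsCompact C0 ∧ C0 ⊆ range dev ∧
    ∀ q ∈ range dev, ∃ γ : Γ, ∃ c ∈ C0, hol γ c = q := by
  obtain ⟨K, hK, hKc⟩ := D.cc
  refine ⟨dev '' K, hK.image D.loc.continuous, image_subset_range _ _, ?_⟩
  rintro _ ⟨y, rfl⟩
  obtain ⟨γ, k, hk, rfl⟩ := hKc y
  exact ⟨γ, dev k, ⟨k, hk, rfl⟩, (D.equi γ k).symm⟩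

end

section
variable {X Γ E : Type} [NormedAddCommGroup E] [NormedSpace ℝ E] [FiniteDimensional ℝ E]
    [TopologicalSpace X] [T2Space X] [Group Γ] [MulAction Γ X] [Nonempty X]
    {dev : X → E} {hol : Γ →* (E ≃ᵃ[ℝ] E)}

omit [Nonempty X] in
theorem g_near_ball (D : AffD X Γ E dev hol) (hinj : Function.Injective dev) (x : X) :
    ∃ r > 0, ball (dev x) r ⊆ range dev ∧
      {γ : Γ | ∃ q ∈ ball (dev x) r, hol γ q ∈ ball (dev x) r}.Finite := by
  have hopen : IsOpen (range dev) := D.loc.isOpenMap.isOpen_range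
  obtain ⟨r, hr, hrs⟩ := Metric.nhds_basis_closedBall.mem_iff.1 (hopen.mem_nhds ⟨x, rfl⟩)
  have : ProperSpace E := FiniteDimensional.proper ℝ E
  have hfin := g_range_pd D hinj (closedBall (dev x) r) (isCompact_closedBall _ _) hrs
  refine ⟨r, hr, ball_subset_closedBall.trans hrs, hfin.subset ?_⟩
  rintro γ ⟨q, hq, hq'⟩
  exact ⟨q, ball_subset_closedBall hq, ball_subset_closedBall hq'⟩

/-- translation vectors are isolated -/
theorem g_Tv_disc (D : AffD X Γ E dev hol) (hinj : Function.Injective dev) [Nonempty X] :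
    ∃ r > 0, ∀ t ∈ Tv hol, ‖t‖ < r → t = 0 := by
  obtain ⟨x⟩ := ‹Nonempty X›
  obtain ⟨r, hr, -, hF⟩ := g_near_ball D hinj x
  -- a power of a small translation is still small
  have hsm : ∀ t ∈ Tv hol, ‖t‖ < r → t ≠ 0 → ∃ γ ∈ {γ : Γ | ∃ q ∈ ball (dev x) r, hol γ q ∈ ball (dev x) r},
      hol γ 0 = t := by
    rintro t ⟨γ, hγ⟩ ht -
    refine ⟨γ, ⟨dev x, mem_ball_self hr, ?_⟩, by rw [hγ, zero_add]⟩
    rw [hγ, mem_ball, dist_eq_norm]
    simpa using ht
  have hfin : {t | t ∈ Tv hol ∧ ‖t‖ < r ∧ t ≠ 0}.Finite := by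
    refine (hF.image fun γ => hol γ 0).subset ?_
    rintro t ⟨h1, h2, h3⟩
    obtain ⟨γ, hγ, rfl⟩ := hsm t h1 h2 h3
    exact ⟨γ, hγ, rfl⟩
  have ev : ∀ᶠ ε : ℝ in 𝓝[>] 0, ∀ t ∈ {t | t ∈ Tv hol ∧ ‖t‖ < r ∧ t ≠ 0}, ε < ‖t‖ := by
    rw [eventually_all_finite hfin]
    rintro t ⟨-, -, ht⟩
    have h1 : 0 < ‖t‖ := norm_pos_iff.2 ht
    have h2 : ∀ᶠ ε : ℝ in 𝓝 0, ε < ‖t‖ := eventually_lt_nhds h1
    exact h2.filter_mono nhdsWithin_le_nhds
  have ev2 : ∀ᶠ ε : ℝ in 𝓝[>] 0, ε < r := (eventually_lt_nhds hr).filter_mono nhdsWithin_le_nhds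
  obtain ⟨ε, ⟨h1, h2⟩, h3⟩ := ((ev.and ev2).and self_mem_nhdsWithin).exists
  refine ⟨ε, h3, fun t ht htε => ?_⟩
  by_contra hne
  exact lt_asymm htε (h1 t ⟨ht, htε.trans h2, hne⟩)

theorem g_det_clV (D : AffD X Γ E dev hol) (hinj : Function.Injective dev) (γ : Γ) :
    |LinearMap.det (clV hol γ)| = 1 := by
  obtain ⟨r, hr, hdisc⟩ := g_Tv_disc D hinj
  have hmul : ∀ γ : Γ, LinearMap.det (clV hol γ) * LinearMap.det (clV hol γ⁻¹) = 1 := by
    intro γ
    rw [← map_mul, clV_mul_inv, map_one]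
  have key : ∀ γ : Γ, 1 ≤ |LinearMap.det (clV hol γ)| := by
    intro γ
    refine one_le_det (left_ne_zero_of_mul_eq_one (hmul γ)) (TV hol) span_TV hr ?_ ?_
    · intro t ht htr
      exact Subtype.ext (hdisc t ht htr)
    · intro t ht
      exact Tv_inv hol γ ht
  have h1 := key γ
  have h2 := key γ⁻¹
  have h3 : |LinearMap.det (clV hol γ)| * |LinearMap.det (clV hol γ⁻¹)| = 1 := by
    rw [← abs_mul, hmul, abs_one]
  nlinarith

/-- the developing image is invariant under the span of the translations -/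
theorem g_sat (D : AffD X Γ E dev hol) (hinj : Function.Injective dev) {p : E}
    (hp : p ∈ range dev) {v : E} (hv : v ∈ Vt hol) : p + v ∈ range dev := by
  classical
  by_contra hcon
  have hopen : IsOpen (range dev) := D.loc.isOpenMap.isOpen_range
  -- the first point outside
  obtain ⟨A, hA⟩ : ∃ A : Set ℝ, A = {s | 0 ≤ s ∧ p + s • v ∉ range dev} := ⟨_, rfl⟩
  have hcl : IsClosed A := by
    have h1 : A = Ici 0 ∩ ((fun s : ℝ => p + s • v) ⁻¹' range dev)ᶜ := by rw [hA]; rfl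
    rw [h1]
    refine isClosed_Ici.inter (hopen.preimage ?_).isClosed_compl
    exact continuous_const.add (continuous_id.smul continuous_const)
  have h1A : (1 : ℝ) ∈ A := by
    rw [hA]
    exact ⟨zero_le_one, by rwa [one_smul]⟩
  have hbd : BddBelow A := ⟨0, fun s hs => by rw [hA] at hs; exact hs.1⟩
  have hs := hcl.csInf_mem ⟨1, h1A⟩ hbd
  obtain ⟨s0, hs0⟩ : ∃ s0, s0 = sInf A := ⟨_, rfl⟩
  rw [← hs0] at hs
  have hsA : 0 ≤ s0 ∧ p + s0 • v ∉ range dev := by
    rw [hA] at hs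
    exact hs
  have hpos : 0 < s0 := by
    rcases hsA.1.lt_or_eq with h | h
    · exact h
    · exfalso
      apply hsA.2
      rw [← h, zero_smul, add_zero]
      exact hp
  have hlt : ∀ s, 0 ≤ s → s < s0 → p + s • v ∈ range dev := by
    intro s h0 h1
    by_contra h2
    have h3 : s ∈ A := by rw [hA]; exact ⟨h0, h2⟩
    have h4 := csInf_le hbd h3
    rw [← hs0] at h4
    linarith
  obtain ⟨y, hy⟩ : ∃ y, y = p + s0 • v := ⟨_, rfl⟩
  -- the sequence
  obtain ⟨a, ha⟩ : ∃ a : ℕ → ℝ, a = fun j : ℕ => s0 - s0 / ((j : ℝ) + 1) := ⟨_, rfl⟩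
  have ha0 : ∀ j, 0 ≤ a j ∧ a j < s0 := by
    intro j
    have h1 : (0 : ℝ) < (j : ℝ) + 1 := by positivity
    rw [ha]
    constructor
    · have : s0 / ((j : ℝ) + 1) ≤ s0 := div_le_self hpos.le (by linarith [(Nat.cast_nonneg j : (0 : ℝ) ≤ j)])
      show 0 ≤ s0 - s0 / ((j : ℝ) + 1)
      linarith
    · have : 0 < s0 / ((j : ℝ) + 1) := by positivity
      show s0 - s0 / ((j : ℝ) + 1) < s0
      linarith
  have hlim : Tendsto a atTop (𝓝 s0) := by
    rw [ha]
    have h1 : Tendsto (fun j : ℕ => s0 / ((j : ℝ) + 1)) atTop (𝓝 0) := by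
      have h2 : Tendsto (fun j : ℕ => (j : ℝ) + 1) atTop atTop :=
        tendsto_atTop_add_const_right _ _ tendsto_natCast_atTop_atTop
      exact h2.const_div_atTop s0
    simpa using tendsto_const_nhds.sub h1
  obtain ⟨xs, hxs⟩ : ∃ xs : ℕ → E, xs = fun j => p + a j • v := ⟨_, rfl⟩
  have hxsΩ : ∀ j, xs j ∈ range dev := by
    intro j
    rw [hxs]
    exact hlt _ (ha0 j).1 (ha0 j).2
  have hxslim : Tendsto xs atTop (𝓝 y) := by
    rw [hxs, hy]
    exact tendsto_const_nhds.add (hlim.smul_const v)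
  obtain ⟨C0, hC0, hC0r, hcc⟩ := g_range_cc D
  choose γ c hcC hγc using fun j => hcc (xs j) (hxsΩ j)
  -- the compact neighbourhood
  obtain ⟨r1, hr1, hr1s⟩ := hC0.exists_cthickening_subset_open hopen hC0r
  obtain ⟨ρ, hρ, hdisc⟩ := g_Tv_disc D hinj
  obtain ⟨r, hr⟩ : ∃ r, r = min r1 (ρ / 2) := ⟨_, rfl⟩
  have hr0 : 0 < r := by rw [hr]; exact lt_min hr1 (half_pos hρ)
  have hrr1 : r ≤ r1 := by rw [hr]; exact min_le_left _ _
  have hrρ : 2 * r ≤ ρ := by
    have : r ≤ ρ / 2 := by rw [hr]; exact min_le_right _ _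
    linarith
  have hC1 : IsCompact (cthickening r1 C0) := hC0.cthickening
  have hF := g_range_pd D hinj _ hC1 hr1s
  have hmem1 : ∀ j, ∀ u : E, ‖u‖ < r → c j + u ∈ cthickening r1 C0 := by
    intro j u hu
    refine mem_cthickening_of_dist_le _ (c j) _ _ (hcC j) ?_
    rw [dist_eq_norm, add_sub_cancel_left]
    linarith
  let : MeasurableSpace (Vt hol) := borel _
  have : BorelSpace (Vt hol) := ⟨rfl⟩
  let μ : Measure (Vt hol) := Measure.addHaar
  obtain ⟨vV, hvV⟩ : ∃ vV : Vt hol, (vV : E) = v := ⟨⟨v, hv⟩, rfl⟩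
  obtain ⟨S, hS⟩ : ∃ S : ℕ → Set (Vt hol), S = fun j =>
      (fun w => a j • vV + w) '' (clV hol (γ j) '' ball 0 r) := ⟨_, rfl⟩
  have hSmem : ∀ j w, w ∈ S j → ∃ u : Vt hol, ‖u‖ < r ∧ w = a j • vV + clV hol (γ j) u ∧
      p + (w : E) = hol (γ j) (c j + u) := by
    intro j w hw
    rw [hS] at hw
    obtain ⟨_, ⟨u, hu, rfl⟩, rfl⟩ := hw
    refine ⟨u, by simpa using hu, rfl, ?_⟩
    rw [hol_add, hγc, hxs, Submodule.coe_add, Submodule.coe_smul, hvV, clV_apply]
    show p + (a j • v + cl hol (γ j) u) = p + a j • v + cl hol (γ j) u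
    abel
  have hinjV : ∀ j, Function.Injective (clV hol (γ j)) := by
    intro j
    have h1 : clV hol (γ j)⁻¹ * clV hol (γ j) = 1 := by
      have := clV_mul_inv (hol := hol) (γ j)⁻¹
      rwa [inv_inv] at this
    intro u u' h
    have h2 : (clV hol (γ j)⁻¹ * clV hol (γ j)) u = (clV hol (γ j)⁻¹ * clV hol (γ j)) u' := by
      show clV hol (γ j)⁻¹ (clV hol (γ j) u) = clV hol (γ j)⁻¹ (clV hol (γ j) u')
      rw [h]
    rw [h1] at h2
    exact h2
  refine pack μ (TV hol) span_TV (S := S) (c := μ (ball 0 r)) ?_ (measure_ball_pos μ _ hr0).ne' ?_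
    ?_ ?_
  · intro j
    rw [hS]
    refine IsOpen.measurableSet ?_
    have h1 : IsOpen (clV hol (γ j) '' ball 0 r) := by
      have h2 : Function.Surjective (clV hol (γ j)) := LinearMap.injective_iff_surjective.1 (hinjV j)
      have h3 := (LinearMap.toContinuousLinearMap (clV hol (γ j))).isOpenMap h2
      exact h3 _ isOpen_ball
    exact (Homeomorph.addLeft (a j • vV)).isOpenMap _ h1
  · intro j
    rw [hS]
    show μ ((fun w => a j • vV + w) '' (clV hol (γ j) '' ball 0 r)) = _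
    rw [image_add_left, measure_preimage_add, Measure.addHaar_image_linearMap, g_det_clV D hinj,
      ENNReal.ofReal_one, one_mul]
  · intro j x hx z hz t ht he
    obtain ⟨u, hu, hxu, -⟩ := hSmem j x hx
    obtain ⟨u', hu', hzu, -⟩ := hSmem j z hz
    have h1 : (t : Vt hol) = clV hol (γ j) (u' - u) := by
      rw [map_sub]
      rw [hxu, hzu] at he
      have : t = a j • vV + clV hol (γ j) u' - (a j • vV + clV hol (γ j) u) := by
        rw [← he]; abel
      rw [this]; abel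
    have h2 : clV hol (γ j)⁻¹ t = u' - u := by
      rw [h1]
      have h3 : clV hol (γ j)⁻¹ * clV hol (γ j) = 1 := by
        have := clV_mul_inv (hol := hol) (γ j)⁻¹
        rwa [inv_inv] at this
      exact congrArg (fun T : Vt hol →ₗ[ℝ] Vt hol => T (u' - u)) h3
    have h3 : (u' - u : Vt hol) = 0 := by
      apply Subtype.ext
      apply hdisc
      · rw [← h2]
        exact Tv_inv hol _ ht
      · have h4 : ‖((u' - u : Vt hol) : E)‖ = ‖u' - u‖ := rfl
        rw [h4]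
        have := norm_sub_le u' u
        linarith
    rw [h1, h3, map_zero]
  · intro i
    by_contra hinf
    have hinf' : {j | ∃ x ∈ S i, ∃ y ∈ S j, ∃ t ∈ TV hol, t + x = y}.Infinite := hinf
    obtain ⟨φ, hφ, hφm⟩ : ∃ φ : ℕ → ℕ, StrictMono φ ∧ ∀ k, φ k ∈
        {j | ∃ x ∈ S i, ∃ y ∈ S j, ∃ t ∈ TV hol, t + x = y} :=
      ⟨_, Nat.nth_strictMono hinf', fun k => Nat.nth_mem_of_infinite hinf' k⟩
    -- each index gives an element of the finite set
    have key : ∀ k, ∃ f ∈ {γ : Γ | ∃ c ∈ cthickening r1 C0, hol γ c ∈ cthickening r1 C0},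
        ∃ t ∈ Tv hol, ∀ q, hol (γ (φ k)) q = hol (γ i * f) q + t := by
      intro k
      obtain ⟨x, hx, z, hz, t, ht, he⟩ := hφm k
      obtain ⟨u, hu, -, hxu⟩ := hSmem i x hx
      obtain ⟨u', hu', -, hzu⟩ := hSmem (φ k) z hz
      obtain ⟨τ, hτ⟩ := ht
      have hτ' : ∀ q, hol τ q = q + t := hτ
      refine ⟨(γ i)⁻¹ * (τ⁻¹ * γ (φ k)), ⟨c (φ k) + u', hmem1 _ _ hu', ?_⟩, t, ⟨τ, hτ⟩, ?_⟩
      · have h1 : hol ((γ i)⁻¹ * (τ⁻¹ * γ (φ k))) (c (φ k) + u') = c i + u := by
          rw [map_mul, map_mul]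
          show hol (γ i)⁻¹ (hol τ⁻¹ (hol (γ (φ k)) (c (φ k) + u'))) = _
          rw [← hzu]
          have h2 : p + (z : E) = hol τ (p + x) := by
            rw [hτ', ← he, Submodule.coe_add]; abel
          rw [h2, hol_inv_apply, hxu, hol_inv_apply]
        rw [h1]
        exact hmem1 _ _ hu
      · intro q
        have e1 : γ (φ k) = τ * (γ i * ((γ i)⁻¹ * (τ⁻¹ * γ (φ k)))) := by group
        have e2 : hol (γ (φ k)) q = hol τ (hol (γ i * ((γ i)⁻¹ * (τ⁻¹ * γ (φ k)))) q) := by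
          conv_lhs => rw [e1, map_mul]
          rfl
        rw [e2, hτ']
    choose f hfF t ht hft using key
    obtain ⟨d, hdF, ψ, hψ, hψd⟩ := Pool.Agent.Y449.MK.pigeon hF hfF
    obtain ⟨z, hz, θ, hθ, hθz⟩ := hC0.tendsto_subseq fun k => hcC (φ (ψ k))
    obtain ⟨n, hn⟩ : ∃ n : ℕ → ℕ, n = fun k => φ (ψ (θ k)) := ⟨_, rfl⟩
    have hnt : Tendsto n atTop atTop := by
      rw [hn]
      exact (hφ.comp (hψ.comp hθ)).tendsto_atTop
    have e1 : ∀ k, t (ψ (θ k)) = xs (n k) - hol (γ i * d) (c (n k)) := by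
      intro k
      have h1 := hft (ψ (θ k)) (c (n k))
      rw [hψd] at h1
      have h2 : hol (γ (φ (ψ (θ k)))) (c (n k)) = xs (n k) := by
        rw [hn]
        exact hγc _
      rw [h2] at h1
      rw [h1]; abel
    have hcont : Continuous fun q => hol (γ i * d) q := AffineEquiv.continuous_of_finiteDimensional _
    have hcl : Tendsto (fun k => c (n k)) atTop (𝓝 z) := by
      rw [hn]
      exact hθz
    have htl : Tendsto (fun k => t (ψ (θ k))) atTop (𝓝 (y - hol (γ i * d) z)) := by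
      have h1 : Tendsto (fun k => xs (n k) - hol (γ i * d) (c (n k))) atTop
          (𝓝 (y - hol (γ i * d) z)) :=
        (hxslim.comp hnt).sub ((hcont.tendsto z).comp hcl)
      exact h1.congr fun k => (e1 k).symm
    -- translations which converge are eventually constant
    have hev : ∀ᶠ k in atTop, ‖t (ψ (θ k)) - (y - hol (γ i * d) z)‖ < ρ / 2 := by
      have h1 := tendsto_iff_norm_sub_tendsto_zero.1 htl
      exact h1.eventually_lt_const (half_pos hρ)
    obtain ⟨k0, hk0⟩ := hev.exists_forall_of_atTop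
    have hconst : ∀ k ≥ k0, t (ψ (θ k)) = t (ψ (θ k0)) := by
      intro k hk
      have h1 := hk0 k hk
      have h2 := hk0 k0 le_rfl
      have h3 : t (ψ (θ k)) - t (ψ (θ k0)) = 0 := by
        apply hdisc _ ((Tv hol).sub_mem (ht _) (ht _))
        have e2 : t (ψ (θ k)) - t (ψ (θ k0)) = (t (ψ (θ k)) - (y - hol (γ i * d) z)) -
          (t (ψ (θ k0)) - (y - hol (γ i * d) z)) := by abel
        rw [e2]
        have := norm_sub_le (t (ψ (θ k)) - (y - hol (γ i * d) z))
          (t (ψ (θ k0)) - (y - hol (γ i * d) z))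
        linarith
      exact sub_eq_zero.1 h3
    have hlimt : y - hol (γ i * d) z = t (ψ (θ k0)) := by
      have h1 : Tendsto (fun k => t (ψ (θ k))) atTop (𝓝 (t (ψ (θ k0)))) :=
        tendsto_const_nhds.congr' (by
          filter_upwards [eventually_ge_atTop k0] with k hk
          exact (hconst k hk).symm)
      exact tendsto_nhds_unique htl h1
    obtain ⟨τ, hτ⟩ := ht (ψ (θ k0))
    have hyΩ : y ∈ range dev := by
      have h1 : y = hol τ (hol (γ i * d) z) := by
        rw [hτ, ← hlimt]; abel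
      rw [h1]
      exact g_range_inv D _ _ (g_range_inv D _ _ (hC0r hz))
    rw [hy] at hyΩ
    exact hsA.2 hyΩ

end

section
variable {X Γ E Q : Type} [NormedAddCommGroup E] [NormedSpace ℝ E] [FiniteDimensional ℝ E]
    [NormedAddCommGroup Q] [NormedSpace ℝ Q] [FiniteDimensional ℝ Q]
    [TopologicalSpace X] [T2Space X] [Group Γ] [MulAction Γ X] [Nonempty X]
    {dev : X → E} {hol : Γ →* (E ≃ᵃ[ℝ] E)} {π : E →L[ℝ] Q} {σ : Q →L[ℝ] E}

theorem g_quo_data (D : AffD X Γ E dev hol) (hinj : Function.Injective dev) (h : Spl hol π σ) :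
    (∀ p, π p ∈ π '' range dev → p ∈ range dev) ∧
    ∃ act : MulAction (qh h).range (π '' range dev),
      AffD (π '' range dev) (qh h).range Q Subtype.val (qh h).range.subtype := by
  have hU : ∀ p, π p ∈ π '' range dev → p ∈ range dev := by
    rintro p ⟨q, hq, hqp⟩
    have h1 : p - q ∈ Vt hol := by rw [← h.ker, map_sub, hqp, sub_self]
    have h2 := g_sat D hinj hq h1
    rwa [add_sub_cancel] at h2
  refine ⟨hU, ?_⟩
  obtain ⟨U, hUdef⟩ : ∃ U : Set Q, U = π '' range dev := ⟨_, rfl⟩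
  rw [← hUdef]
  rw [← hUdef] at hU
  have hUr : ∀ p ∈ range dev, π p ∈ U := fun p hp => by rw [hUdef]; exact mem_image_of_mem _ hp
  have hsurj : Function.Surjective π := fun q => ⟨σ q, h.sec q⟩
  have hUo : IsOpen U := by
    rw [hUdef]
    exact π.isOpenMap hsurj _ D.loc.isOpenMap.isOpen_range
  have hUinv : ∀ γ, ∀ q ∈ U, qh h γ q ∈ U := by
    intro γ q hq
    obtain ⟨p, rfl⟩ := hsurj q
    rw [← qh_equi]
    exact hUr _ (g_range_inv D γ _ (hU _ hq))
  have hUinv' : ∀ g : (qh h).range, ∀ y ∈ U, (g : Q ≃ᵃ[ℝ] Q) y ∈ U := by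
    rintro ⟨_, γ, rfl⟩ y hy
    exact hUinv γ y hy
  let act : MulAction (qh h).range U :=
    { smul := fun g y => ⟨(g : Q ≃ᵃ[ℝ] Q) y, hUinv' g y y.2⟩
      one_smul := fun y => Subtype.ext rfl
      mul_smul := fun g h y => Subtype.ext rfl }
  refine ⟨act, hUo.isOpenEmbedding_subtypeVal.isLocalHomeomorph, ?_, fun g x => rfl, ?_, ?_⟩
  · intro g
    exact ((AffineEquiv.continuous_of_finiteDimensional (g : Q ≃ᵃ[ℝ] Q)).comp
      continuous_subtype_val).subtype_mk _
  · -- proper discontinuity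
    intro K hK
    obtain ⟨R, hR⟩ := cocpt_T hol
    obtain ⟨Kh, hKh⟩ : ∃ Kh : Set E, Kh = (fun w : Q × E => σ w.1 + w.2) ''
        ((Subtype.val '' K) ×ˢ (closedBall 0 |R| ∩ (Vt hol : Set E))) := ⟨_, rfl⟩
    have hVc : IsClosed (Vt hol : Set E) := (Vt hol).closed_of_finiteDimensional
    have hKc : IsCompact Kh := by
      rw [hKh]
      have : ProperSpace E := FiniteDimensional.proper ℝ E
      exact ((hK.image continuous_subtype_val).prod
        ((isCompact_closedBall (0 : E) |R|).inter_right hVc)).image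
          ((σ.continuous.comp continuous_fst).add continuous_snd)
    have hKr : Kh ⊆ range dev := by
      rw [hKh]
      rintro _ ⟨w, ⟨⟨y, hy, hyw⟩, -, hw2⟩, rfl⟩
      apply hU
      show π (σ w.1 + w.2) ∈ U
      rw [map_add, h.sec, (h.ker _).2 hw2, add_zero, ← hyw]
      exact y.2
    have hfin := g_range_pd D hinj Kh hKc hKr
    refine (hfin.image fun γ => (⟨qh h γ, γ, rfl⟩ : (qh h).range)).subset ?_
    rintro ⟨_, γ, rfl⟩ ⟨y, hy, hgy⟩
    obtain ⟨p, hp⟩ : ∃ p, p = σ (y : Q) := ⟨_, rfl⟩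
    have hpK : p ∈ Kh := by
      rw [hp, hKh]
      refine ⟨((y : Q), 0), ⟨mem_image_of_mem _ hy, ?_, (Vt hol).zero_mem⟩, add_zero _⟩
      rw [mem_closedBall, dist_self]
      exact abs_nonneg R
    have hpy : π p = y := by rw [hp, h.sec]
    obtain ⟨t, ht, htR⟩ := hR _ (h.sub (hol γ p))
    obtain ⟨δ, hδ⟩ := ht
    have htV : t ∈ Vt hol := Submodule.subset_span ⟨δ, hδ⟩
    have hδ1 : qh h δ = 1 := by
      refine AffineEquiv.ext fun q => ?_
      obtain ⟨p, rfl⟩ := hsurj q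
      rw [← qh_equi, hδ, map_add, (h.ker _).2 htV, add_zero]
      rfl
    refine ⟨δ * γ, ⟨p, hpK, ?_⟩, ?_⟩
    · rw [map_mul]
      show hol δ (hol γ p) ∈ Kh
      rw [hδ, hKh]
      refine ⟨(π (hol γ p), hol γ p - σ (π (hol γ p)) + t), ⟨?_, ?_, ?_⟩, ?_⟩
      · show π (hol γ p) ∈ _
        rw [qh_equi h, hpy]
        exact ⟨_, hgy, rfl⟩
      · rw [mem_closedBall, dist_zero_right]
        exact htR.trans (le_abs_self R)
      · exact (Vt hol).add_mem (h.sub _) htV
      · show σ (π (hol γ p)) + (hol γ p - σ (π (hol γ p)) + t) = hol γ p + t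
        abel
    · apply Subtype.ext
      show qh h (δ * γ) = qh h γ
      rw [map_mul, hδ1, one_mul]
  · -- cocompactness
    obtain ⟨C0, hC0, hC0r, hcc⟩ := g_range_cc D
    refine ⟨Subtype.val ⁻¹' (π '' C0), ?_, fun z => ?_⟩
    · refine (hUo.isOpenEmbedding_subtypeVal.isInducing.isCompact_preimage_iff ?_).2
        (hC0.image π.continuous)
      rw [Subtype.range_coe]
      rintro _ ⟨c, hc, rfl⟩
      exact hUr _ (hC0r hc)
    · obtain ⟨p, hp⟩ := hsurj z
      have hz := z.2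
      rw [← hp] at hz
      obtain ⟨γ, c, hc, hγc⟩ := hcc p (hU _ hz)
      refine ⟨⟨qh h γ, γ, rfl⟩, ⟨π c, hUr _ (hC0r hc)⟩, mem_image_of_mem _ hc, ?_⟩
      apply Subtype.ext
      show qh h γ (π c) = z
      rw [← qh_equi, hγc, hp]

end

end Pool.Agent.P8H67.TD
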