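import Pool.Agent.P8H67.TD.Gen

/-!
Project TD: the tower of quotients by the translations, with the stabilizers of the fibres.
-/

set_option autoImplicit false

open Set Filter Topology Metric
open Pool.Agent.W689.Mk Pool.Agent.TH94.MK

namespace Pool.Agent.P8H67.TD

open Pool.Agent.P8H83 Pool.Agent.P8H67.TT

/-- a group with a solvable subgroup of finite index -/
def VSolv (G : Type) [Group G] : Prop := ∃ A : Subgroup G, A.FiniteIndex ∧ Group.IsSolvable A

section
variable {X Γ E Q : Type} [NormedAddCommGroup E] [NormedSpace ℝ E] [FiniteDimensional ℝ E]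
    [NormedAddCommGroup Q] [NormedSpace ℝ Q] [FiniteDimensional ℝ Q]
    [TopologicalSpace X] [T2Space X] [Group Γ] [MulAction Γ X] [Nonempty X]
    {dev : X → E} {hol : Γ →* (E ≃ᵃ[ℝ] E)} {π : E →L[ℝ] Q} {σ : Q →L[ℝ] E}

/-- the elements which move a point in the direction of the translations are finitely many modulo
the translations -/
theorem fin_mod (D : AffD X Γ E dev hol) (hinj : Function.Injective dev) (x : X) :
    ∃ F : Set Γ, F.Finite ∧ ∀ γ, hol γ (dev x) - dev x ∈ Vt hol →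
      ∃ δ : Γ, (∃ t : E, ∀ p, hol δ p = p + t) ∧ δ * γ ∈ F := by
  obtain ⟨R, hR⟩ := cocpt_T hol
  obtain ⟨Kh, hKh⟩ : ∃ Kh : Set E, Kh = (fun w : E => dev x + w) ''
      (closedBall 0 |R| ∩ (Vt hol : Set E)) := ⟨_, rfl⟩
  have hVc : IsClosed (Vt hol : Set E) := (Vt hol).closed_of_finiteDimensional
  have hKc : IsCompact Kh := by
    rw [hKh]
    have : ProperSpace E := FiniteDimensional.proper ℝ E
    exact ((isCompact_closedBall (0 : E) |R|).inter_right hVc).image
      (continuous_const.add continuous_id)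
  have hKr : Kh ⊆ range dev := by
    rw [hKh]
    rintro _ ⟨w, ⟨-, hw⟩, rfl⟩
    exact g_sat D hinj ⟨x, rfl⟩ hw
  refine ⟨{γ : Γ | ∃ c ∈ Kh, hol γ c ∈ Kh}, g_range_pd D hinj Kh hKc hKr, fun γ hd => ?_⟩
  obtain ⟨t, ht, htR⟩ := hR _ hd
  obtain ⟨δ, hδ⟩ := ht
  have htV : t ∈ Vt hol := Submodule.subset_span ⟨δ, hδ⟩
  refine ⟨δ, ⟨t, hδ⟩, dev x, ?_, ?_⟩
  · rw [hKh]
    refine ⟨0, ⟨?_, (Vt hol).zero_mem⟩, add_zero _⟩
    rw [mem_closedBall, dist_self]
    exact abs_nonneg R
  · rw [map_mul]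
    show hol δ (hol γ (dev x)) ∈ Kh
    rw [hδ, hKh]
    refine ⟨hol γ (dev x) - dev x + t, ⟨?_, (Vt hol).add_mem hd htV⟩, ?_⟩
    · rw [mem_closedBall, dist_zero_right]
      exact htR.trans (le_abs_self R)
    · show dev x + (hol γ (dev x) - dev x + t) = hol γ (dev x) + t
      abel

/-- virtual solvability of stabilizers goes up -/
theorem vs_stab (D : AffD X Γ E dev hol) (hinj : Function.Injective dev) (h : Spl hol π σ)
    (hhol : Function.Injective hol) {R : Type} [NormedAddCommGroup R] [NormedSpace ℝ R]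
    (ρ : (qh h).range →* (R ≃ᵃ[ℝ] R)) (u : R) (hG : VSolv (St ρ u)) :
    VSolv (St (ρ.comp (qh h).rangeRestrict) u) := by
  obtain ⟨A', hA', hs⟩ := hG
  obtain ⟨T, hTdef⟩ : ∃ T : Subgroup Γ, T = (AffineEquiv.linearHom.comp hol).ker := ⟨_, rfl⟩
  have hTn : T.Normal := by rw [hTdef]; exact MonoidHom.normal_ker _
  have htr : ∀ γ ∈ T, ∀ p : E, hol γ p = p + hol γ 0 := by
    intro γ hγ p
    rw [hTdef] at hγ
    have h1 : (hol γ).linear = LinearEquiv.refl ℝ E := hγ
    have h2 := hol_add (hol := hol) γ 0 p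
    rw [zero_add] at h2
    rw [h2]
    show hol γ 0 + (hol γ).linear p = _
    rw [h1, add_comm]
    rfl
  have hmemT : ∀ δ : Γ, ∀ t : E, (∀ p, hol δ p = p + t) → δ ∈ T := by
    intro δ t hδ
    rw [hTdef, MonoidHom.mem_ker]
    refine LinearEquiv.ext fun v => ?_
    show (hol δ).linear v = v
    have h1 := hol_sub (hol := hol) δ v 0
    rw [hδ, hδ, sub_zero] at h1
    show lin hol δ v = v
    rw [← h1]
    abel
  have hTq : ∀ δ ∈ T, qh h δ = 1 := by
    intro δ hδ
    have htV : hol δ 0 ∈ Vt hol := Submodule.subset_span ⟨δ, htr δ hδ⟩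
    refine AffineEquiv.ext fun q => ?_
    have hq : π (σ q) = q := h.sec q
    rw [← hq, ← qh_equi, htr δ hδ, map_add, (h.ker _).2 htV, add_zero]
    rfl
  obtain ⟨S, hS⟩ : ∃ S : Subgroup Γ, S = St (ρ.comp (qh h).rangeRestrict) u := ⟨_, rfl⟩
  rw [← hS]
  have hTS : ∀ δ ∈ T, δ ∈ S := by
    intro δ hδ
    rw [hS]
    show ρ ((qh h).rangeRestrict δ) u = u
    have h1 : (qh h).rangeRestrict δ = 1 := Subtype.ext (hTq δ hδ)
    rw [h1, map_one]
    rfl
  have hTs : Group.IsSolvable (T.subgroupOf S) := by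
    refine Group.isSolvable_of_comm fun a b => Subtype.ext (Subtype.ext (hhol ?_))
    refine AffineEquiv.ext fun p => ?_
    have ha : ((a : S) : Γ) ∈ T := a.2
    have hb : ((b : S) : Γ) ∈ T := b.2
    show hol (((a : S) : Γ) * ((b : S) : Γ)) p = hol (((b : S) : Γ) * ((a : S) : Γ)) p
    rw [map_mul, map_mul]
    show hol ((a : S) : Γ) (hol ((b : S) : Γ) p) = hol ((b : S) : Γ) (hol ((a : S) : Γ) p)
    rw [htr _ ha (hol ((b : S) : Γ) p), htr _ hb (hol ((a : S) : Γ) p), htr _ ha p, htr _ hb p]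
    abel
  have hf0 : ∀ γ ∈ S, (qh h).rangeRestrict γ ∈ St ρ u := by
    intro γ hγ
    rw [hS] at hγ
    exact hγ
  let f : S →* St ρ u :=
    { toFun := fun s => ⟨(qh h).rangeRestrict (s : Γ), hf0 s s.2⟩
      map_one' := Subtype.ext (by simp)
      map_mul' := fun a b => Subtype.ext (by simp) }
  refine virt_solv f (T.subgroupOf S) hTs ?_ A' hA' hs
  obtain ⟨x⟩ := ‹Nonempty X›
  obtain ⟨F, hF, hF'⟩ := fin_mod D hinj x
  have hfin : {s : S | (s : Γ) ∈ F}.Finite := hF.preimage Subtype.val_injective.injOn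
  have hsub : ((f.ker.map (QuotientGroup.mk' (T.subgroupOf S)) :
      Subgroup (S ⧸ (T.subgroupOf S))) : Set (S ⧸ (T.subgroupOf S))) ⊆
      (QuotientGroup.mk' (T.subgroupOf S)) '' {s : S | (s : Γ) ∈ F} := by
    rintro _ ⟨s, hs, rfl⟩
    have hγ1 : qh h (s : Γ) = 1 := by
      have h1 := congrArg Subtype.val ((MonoidHom.mem_ker).1 hs)
      exact congrArg Subtype.val h1
    have hd : hol (s : Γ) (dev x) - dev x ∈ Vt hol := by
      rw [← h.ker, map_sub, qh_equi h, hγ1]
      show π (dev x) - π (dev x) = 0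
      rw [sub_self]
    obtain ⟨δ, ⟨t, hδ⟩, hδF⟩ := hF' _ hd
    have hδT := hmemT δ t hδ
    refine ⟨⟨δ, hTS δ hδT⟩ * s, hδF, ?_⟩
    rw [map_mul]
    have h1 : QuotientGroup.mk' (T.subgroupOf S) ⟨δ, hTS δ hδT⟩ = 1 :=
      (QuotientGroup.eq_one_iff _).2 hδT
    rw [h1, one_mul]
  exact ((hfin.image _).subset hsub).to_subtype

end

/-- the quotient of the domain by the translations -/
def QuoS (X Γ E : Type) [NormedAddCommGroup E] [NormedSpace ℝ E]
    [Group Γ] (dev : X → E) (hol : Γ →* (E ≃ᵃ[ℝ] E)) : Prop :=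
  ∃ (Q : Type) (_ : NormedAddCommGroup Q) (_ : NormedSpace ℝ Q) (_ : FiniteDimensional ℝ Q)
    (π : E →L[ℝ] Q) (holQ : Γ →* (Q ≃ᵃ[ℝ] Q)) (G : Subgroup (Q ≃ᵃ[ℝ] Q)) (U : Set Q),
    Function.Surjective π ∧ (∀ γ p, π (hol γ p) = holQ γ (π p)) ∧ holQ.range = G ∧
    U = π '' range dev ∧ (∀ p, π p ∈ U → p ∈ range dev) ∧
    (∃ _ : MulAction G U, AffD U G Q Subtype.val G.subtype) ∧
    (∀ g ∈ G, g.linear = LinearEquiv.refl ℝ Q → g = 1) ∧
    ∀ p ∈ range dev, VSolv (St holQ (π p))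

theorem vsolv_of_finite (G : Type) [Group G] [Finite G] : VSolv G := by
  refine ⟨⊥, inferInstance, inferInstance⟩

theorem quoS_base {X Γ E : Type} [NormedAddCommGroup E] [NormedSpace ℝ E]
    [FiniteDimensional ℝ E] [TopologicalSpace X] [T2Space X] [Nonempty X] [Group Γ]
    [MulAction Γ X] {dev : X → E} {hol : Γ →* (E ≃ᵃ[ℝ] E)} (D : AffD X Γ E dev hol)
    (hinj : Function.Injective dev) (hhol : Function.Injective hol) (hV : Vt hol = ⊥) :
    QuoS X Γ E dev hol := by
  obtain ⟨C, π, σ, h, -⟩ := exists_spl hol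
  obtain ⟨hU, act, D'⟩ := g_quo_data D hinj h
  have hπ : ∀ v, π v = 0 → v = 0 := by
    intro v hv
    have := (h.ker v).1 hv
    rwa [hV, Submodule.mem_bot] at this
  refine ⟨C, inferInstance, inferInstance, inferInstance, π, qh h, (qh h).range, π '' range dev,
    fun q => ⟨σ q, h.sec q⟩, fun γ p => qh_equi h γ p, rfl, rfl, hU, ⟨act, D'⟩, ?_, ?_⟩
  · rintro _ ⟨γ, rfl⟩ hγ
    have hπσ : ∀ p, σ (π p) = p := by
      intro p
      have h1 := hπ (σ (π p) - p) (by rw [map_sub, h.sec, sub_self])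
      exact sub_eq_zero.1 h1
    have h1 : ∀ v, cl hol γ v = v := by
      intro v
      have h2 : (qh h γ).linear (π v) = π v := by rw [hγ]; rfl
      rw [qh_linear, hπσ] at h2
      have h3 := hπ (cl hol γ v - v) (by rw [map_sub, h2, sub_self])
      exact sub_eq_zero.1 h3
    have h2 : ∀ p, hol γ p = p + hol γ 0 := fun p => by
      rw [hol_eq, h1]
    have h3 : hol γ 0 ∈ Vt hol := Submodule.subset_span ⟨γ, h2⟩
    rw [hV, Submodule.mem_bot] at h3
    refine AffineEquiv.ext fun q => ?_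
    rw [qh_apply, h2, h3, add_zero, h.sec]
    rfl
  · intro p hp
    have hfin := g_range_pd D hinj {p} isCompact_singleton (by rintro _ rfl; exact hp)
    have : Finite (St (qh h) (π p)) := by
      refine (hfin.subset ?_).to_subtype
      intro γ hγ
      have h1 : qh h γ (π p) = π p := hγ
      rw [← qh_equi] at h1
      have h2 := hπ (hol γ p - p) (by rw [map_sub, h1, sub_self])
      exact ⟨p, rfl, sub_eq_zero.1 h2⟩
    exact vsolv_of_finite _

theorem quoS_all (n : ℕ) : ∀ (X Γ E : Type) [NormedAddCommGroup E] [NormedSpace ℝ E]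
    [FiniteDimensional ℝ E] [TopologicalSpace X] [T2Space X] [Nonempty X] [Group Γ]
    [MulAction Γ X] (dev : X → E) (hol : Γ →* (E ≃ᵃ[ℝ] E)), AffD X Γ E dev hol →
    Function.Injective dev → Function.Injective hol → Module.finrank ℝ E ≤ n →
    QuoS X Γ E dev hol := by
  induction n with
  | zero =>
    intro X Γ E _ _ _ _ _ _ _ _ dev hol D hinj hhol hn
    refine quoS_base D hinj hhol ?_
    have h1 : Module.finrank ℝ (Vt hol) ≤ Module.finrank ℝ E := Submodule.finrank_le _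
    exact Submodule.finrank_eq_zero.1 (by omega)
  | succ n ih =>
    intro X Γ E _ _ _ _ _ _ _ _ dev hol D hinj hhol hn
    by_cases hV : Vt hol = ⊥
    · exact quoS_base D hinj hhol hV
    obtain ⟨C, π, σ, h, hC⟩ := exists_spl hol
    obtain ⟨hU, act, D'⟩ := g_quo_data D hinj h
    have hpos : 0 < Module.finrank ℝ (Vt hol) :=
      Nat.pos_of_ne_zero fun h0 => hV (Submodule.finrank_eq_zero.1 h0)
    have hne : Nonempty (π '' range dev) := by
      obtain ⟨x⟩ := ‹Nonempty X›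
      exact ⟨⟨π (dev x), mem_image_of_mem _ ⟨x, rfl⟩⟩⟩
    obtain ⟨Q, i1, i2, i3, π', holQ, G, U, a1, a2, a3, a4, a5, a6, a7, a9⟩ :=
      ih (π '' range dev) (qh h).range C Subtype.val (qh h).range.subtype D'
        Subtype.val_injective Subtype.val_injective (by omega)
    rw [Subtype.range_coe] at a4 a9
    have hsurj : Function.Surjective π := fun q => ⟨σ q, h.sec q⟩
    refine ⟨Q, i1, i2, i3, π'.comp π, holQ.comp (qh h).rangeRestrict, G, U, a1.comp hsurj, ?_, ?_,
      ?_, ?_, a6, a7, ?_⟩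
    · intro γ p
      have h1 := a2 ((qh h).rangeRestrict γ) (π p)
      have h2 : π' (π (hol γ p)) = π' (qh h γ (π p)) := by rw [qh_equi h]
      exact h2.trans h1
    · rw [← a3]
      ext g
      constructor
      · rintro ⟨γ, rfl⟩
        exact ⟨_, rfl⟩
      · rintro ⟨g', rfl⟩
        obtain ⟨γ, rfl⟩ := (qh h).rangeRestrict_surjective g'
        exact ⟨γ, rfl⟩
    · rw [a4, image_image]
      rfl
    · intro p hp
      have h1 := a5 (π p) hp
      rw [Subtype.range_coe] at h1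
      exact hU p h1
    · intro p hp
      exact vs_stab D hinj h hhol holQ _ (a9 (π p) (mem_image_of_mem _ hp))

end Pool.Agent.P8H67.TD
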